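import Mathlib

/-!
# The Gaussian functional on polynomials

Gaussian integration by parts and a covariance inequality by interpolation.
-/

set_option autoImplicit false

open MeasureTheory ProbabilityTheory MvPolynomial

namespace Pool.Agent.Lib.H31.MC

/-- the standard Gaussian measure on `τ → ℝ` -/
noncomputable def gm (τ : Type) [Fintype τ] : Measure (τ → ℝ) :=
  Measure.pi fun _ => gaussianReal 0 1

instance (τ : Type) [Fintype τ] : IsProbabilityMeasure (gm τ) := by
  unfold gm; infer_instance

/-! ### one variable -/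

theorem integrable_pow_gauss (n : ℕ) : Integrable (fun x : ℝ => x ^ n) (gaussianReal 0 1) := by
  rcases Nat.eq_zero_or_pos n with h | h
  · subst h
    simp only [pow_zero]
    exact integrable_const _
  · have h1 := memLp_id_gaussianReal' (μ := 0) (v := 1) (n : ENNReal) (by simp)
    have h2 := h1.integrable_norm_pow (by omega)
    refine (integrable_norm_iff (by fun_prop)).1 ?_
    simpa using h2

theorem gauss_ibp (n : ℕ) :
    ∫ x : ℝ, x ^ (n + 1) ∂(gaussianReal 0 1) = n * ∫ x : ℝ, x ^ (n - 1) ∂(gaussianReal 0 1) := by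
  have hv : (1 : NNReal) ≠ 0 := one_ne_zero
  have hint : ∀ m : ℕ, Integrable (fun x : ℝ => x ^ m * gaussianPDFReal 0 1 x) := by
    intro m
    have h := integrable_pow_gauss m
    rw [gaussianReal_of_var_ne_zero _ hv] at h
    rw [integrable_withDensity_iff (measurable_gaussianPDF 0 1)
      (Filter.Eventually.of_forall fun x => gaussianPDF_lt_top)] at h
    simpa [toReal_gaussianPDF] using h
  have hform : ∀ m : ℕ, ∫ x : ℝ, x ^ m ∂(gaussianReal 0 1) =
      ∫ x : ℝ, x ^ m * gaussianPDFReal 0 1 x := by
    intro m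
    rw [integral_gaussianReal_eq_integral_smul hv]
    refine integral_congr_ae (Filter.Eventually.of_forall fun x => ?_)
    simp [mul_comm]
  have hd : ∀ x : ℝ, HasDerivAt (gaussianPDFReal 0 1) (-(x * gaussianPDFReal 0 1 x)) x := by
    intro x
    have h1 : gaussianPDFReal 0 1 = fun x => (√(2 * Real.pi * ((1 : NNReal) : ℝ)))⁻¹ *
        Real.exp (-(x - 0) ^ 2 / (2 * ((1 : NNReal) : ℝ))) := by
      rw [gaussianPDFReal_def]
    rw [h1]
    have h2 : HasDerivAt (fun x : ℝ => -(x - 0) ^ 2 / (2 * ((1 : NNReal) : ℝ))) (-x) x := by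
      have := ((((hasDerivAt_id x).sub_const 0).pow 2).neg).div_const (2 * ((1 : NNReal) : ℝ))
      refine this.congr_deriv ?_
      simp
      ring
    have h3 := (h2.exp).const_mul ((√(2 * Real.pi * ((1 : NNReal) : ℝ)))⁻¹)
    refine h3.congr_deriv ?_
    ring
  rw [hform, hform]
  have key := integral_mul_deriv_eq_deriv_mul_of_integrable (A := ℝ)
    (u := fun x : ℝ => x ^ n) (v := gaussianPDFReal 0 1)
    (u' := fun x => n * x ^ (n - 1)) (v' := fun x => -(x * gaussianPDFReal 0 1 x))
    (fun x _ => by simpa using hasDerivAt_pow n x) (fun x _ => hd x) ?_ ?_ ?_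
  · have e1 : ∫ x : ℝ, x ^ n * -(x * gaussianPDFReal 0 1 x) =
        -∫ x : ℝ, x ^ (n + 1) * gaussianPDFReal 0 1 x := by
      rw [← integral_neg]
      refine integral_congr_ae (Filter.Eventually.of_forall fun x => ?_)
      simp only
      ring
    have e2 : ∫ x : ℝ, n * x ^ (n - 1) * gaussianPDFReal 0 1 x =
        n * ∫ x : ℝ, x ^ (n - 1) * gaussianPDFReal 0 1 x := by
      rw [← integral_const_mul]
      refine integral_congr_ae (Filter.Eventually.of_forall fun x => ?_)
      simp only
      ring
    rw [e1, e2] at key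
    linarith
  · have := (hint (n + 1)).neg
    refine this.congr (Filter.Eventually.of_forall fun x => ?_)
    simp only [Pi.neg_apply, Pi.mul_apply]
    ring
  · have := (hint (n - 1)).const_mul (n : ℝ)
    refine this.congr (Filter.Eventually.of_forall fun x => ?_)
    simp only [Pi.mul_apply]
    ring
  · exact hint n

/-! ### several variables -/

variable {τ : Type} [Fintype τ]

theorem integrable_monomial (m : τ →₀ ℕ) (c : ℝ) :
    Integrable (fun g : τ → ℝ => eval g (monomial m c)) (gm τ) := by
  simp_rw [eval_monomial, Finsupp.prod_fintype m (fun i n => (_ : τ → ℝ) i ^ n) (by simp)]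
  refine Integrable.const_mul ?_ c
  exact Integrable.fintype_prod (f := fun (i : τ) (x : ℝ) => x ^ m i)
    (fun i => integrable_pow_gauss (m i))

theorem integrable_eval (P : MvPolynomial τ ℝ) :
    Integrable (fun g : τ → ℝ => eval g P) (gm τ) := by
  induction P using MvPolynomial.induction_on' with
  | monomial m c => exact integrable_monomial m c
  | add p q hp hq =>
    simp only [map_add]
    exact hp.add hq

/-- expectation of a polynomial in independent standard Gaussian variables -/
noncomputable def E : MvPolynomial τ ℝ →ₗ[ℝ] ℝ where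
  toFun P := ∫ g : τ → ℝ, eval g P ∂(gm τ)
  map_add' P Q := by
    simp only [map_add]
    exact integral_add (integrable_eval P) (integrable_eval Q)
  map_smul' c P := by
    simp only [smul_eval, RingHom.id_apply, smul_eq_mul]
    exact integral_const_mul c _

theorem E_apply (P : MvPolynomial τ ℝ) : E P = ∫ g : τ → ℝ, eval g P ∂(gm τ) := rfl

/-- moments of the standard Gaussian -/
noncomputable def mom (n : ℕ) : ℝ := ∫ x : ℝ, x ^ n ∂(gaussianReal 0 1)

theorem mom_zero : mom 0 = 1 := by
  unfold mom; simp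

theorem mom_succ (n : ℕ) : mom (n + 1) = n * mom (n - 1) := gauss_ibp n

theorem E_monomial (m : τ →₀ ℕ) (c : ℝ) : E (monomial m c) = c * ∏ i, mom (m i) := by
  rw [E_apply]
  simp_rw [eval_monomial, Finsupp.prod_fintype m (fun i n => (_ : τ → ℝ) i ^ n) (by simp)]
  rw [integral_const_mul]
  congr 1
  exact integral_fintype_prod_eq_prod (f := fun (i : τ) (x : ℝ) => x ^ m i)

theorem E_mono {P Q : MvPolynomial τ ℝ} (h : ∀ g : τ → ℝ, eval g P ≤ eval g Q) : E P ≤ E Q :=
  integral_mono (integrable_eval P) (integrable_eval Q) h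

theorem E_one : E (1 : MvPolynomial τ ℝ) = 1 := by
  rw [E_apply]; simp

theorem E_C (c : ℝ) : E (C c : MvPolynomial τ ℝ) = c := by
  rw [E_apply]; simp

theorem E_C_mul (c : ℝ) (P : MvPolynomial τ ℝ) : E (C c * P) = c * E P := by
  rw [← smul_eq_C_mul, map_smul, smul_eq_mul]

/-- Gaussian integration by parts. -/
theorem E_X_mul [DecidableEq τ] (t : τ) (P : MvPolynomial τ ℝ) :
    E (X t * P) = E (pderiv t P) := by
  induction P using MvPolynomial.induction_on' with
  | add p q hp hq => rw [mul_add, map_add, map_add, map_add, hp, hq]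
  | monomial m c =>
    have h1 : (X t : MvPolynomial τ ℝ) * monomial m c = monomial (Finsupp.single t 1 + m) c := by
      rw [X, monomial_mul, one_mul]
    rw [h1, E_monomial, pderiv_monomial, E_monomial]
    rw [← Finset.mul_prod_erase Finset.univ _ (Finset.mem_univ t),
      ← Finset.mul_prod_erase Finset.univ (fun i => mom ((m - Finsupp.single t 1 : τ →₀ ℕ) i))
        (Finset.mem_univ t)]
    have h2 : ∏ i ∈ Finset.univ.erase t, mom ((Finsupp.single t 1 + m : τ →₀ ℕ) i) =
        ∏ i ∈ Finset.univ.erase t, mom ((m - Finsupp.single t 1 : τ →₀ ℕ) i) := by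
      refine Finset.prod_congr rfl fun i hi => ?_
      have hne : t ≠ i := (Finset.ne_of_mem_erase hi).symm
      simp [hne]
    rw [h2]
    have h3 : (Finsupp.single t 1 + m : τ →₀ ℕ) t = m t + 1 := by
      simp [add_comm]
    have h4 : (m - Finsupp.single t 1 : τ →₀ ℕ) t = m t - 1 := by simp
    rw [h3, h4, mom_succ]
    ring

/-! ### two copies -/

theorem E_rename_mul (F G : MvPolynomial τ ℝ) :
    E (rename Sum.inl F * rename Sum.inr G : MvPolynomial (τ ⊕ τ) ℝ) = E F * E G := by
  induction F using MvPolynomial.induction_on' with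
  | add p q hp hq => rw [map_add, add_mul, map_add, hp, hq, map_add, add_mul]
  | monomial m c =>
    induction G using MvPolynomial.induction_on' with
    | add p q hp hq => rw [map_add, mul_add, map_add, hp, hq, map_add, mul_add]
    | monomial m' c' =>
      rw [rename_monomial, rename_monomial, monomial_mul, E_monomial, E_monomial, E_monomial,
        Fintype.prod_sum_type]
      have h1 : ∀ i : τ, (Finsupp.mapDomain Sum.inl m + Finsupp.mapDomain Sum.inr m' :
          τ ⊕ τ →₀ ℕ) (Sum.inl i) = m i := by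
        intro i
        rw [Finsupp.add_apply, Finsupp.mapDomain_apply Sum.inl_injective,
          Finsupp.mapDomain_of_notMem_range, add_zero]
        simp
      have h2 : ∀ i : τ, (Finsupp.mapDomain Sum.inl m + Finsupp.mapDomain Sum.inr m' :
          τ ⊕ τ →₀ ℕ) (Sum.inr i) = m' i := by
        intro i
        rw [Finsupp.add_apply, Finsupp.mapDomain_apply Sum.inr_injective,
          Finsupp.mapDomain_of_notMem_range, zero_add]
        simp
      simp_rw [h1, h2]
      ring

theorem E_rename_inl (F : MvPolynomial τ ℝ) :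
    E (rename Sum.inl F : MvPolynomial (τ ⊕ τ) ℝ) = E F := by
  have := E_rename_mul F 1
  rwa [map_one, mul_one, E_one, mul_one] at this

/-- the polynomial `G` in the rotated variables `sin θ g + cos θ g'` -/
noncomputable def rot (θ : ℝ) : MvPolynomial τ ℝ →ₐ[ℝ] MvPolynomial (τ ⊕ τ) ℝ :=
  aeval fun i => C (Real.sin θ) * X (Sum.inl i) + C (Real.cos θ) * X (Sum.inr i)

theorem rot_X (θ : ℝ) (i : τ) : rot θ (X i) =
    C (Real.sin θ) * X (Sum.inl i) + C (Real.cos θ) * X (Sum.inr i) := by
  unfold rot; rw [aeval_X]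

theorem rot_zero (G : MvPolynomial τ ℝ) : rot 0 G = rename Sum.inr G := by
  have : rot (τ := τ) 0 = rename Sum.inr := by
    apply MvPolynomial.algHom_ext
    intro i
    rw [rot_X]; simp
  rw [this]

theorem rot_pi (G : MvPolynomial τ ℝ) : rot (Real.pi / 2) G = rename Sum.inl G := by
  have : rot (τ := τ) (Real.pi / 2) = rename Sum.inl := by
    apply MvPolynomial.algHom_ext
    intro i
    rw [rot_X]; simp
  rw [this]

/-- the rotated point -/
noncomputable def rotpt (θ : ℝ) (g : τ ⊕ τ → ℝ) : τ → ℝ := fun i =>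
  Real.sin θ * g (Sum.inl i) + Real.cos θ * g (Sum.inr i)

theorem eval_rot (θ : ℝ) (g : τ ⊕ τ → ℝ) (G : MvPolynomial τ ℝ) :
    eval g (rot θ G) = eval (rotpt θ g) G := by
  have : ((eval g).comp (rot (τ := τ) θ).toRingHom) = eval (rotpt θ g) := by
    apply MvPolynomial.ringHom_ext
    · intro r
      simp [rot]
    · intro i
      simp [rot_X, rotpt]
  exact DFunLike.congr_fun this G

theorem pderiv_inl_rot [DecidableEq τ] (θ : ℝ) (i : τ) (G : MvPolynomial τ ℝ) :
    pderiv (Sum.inl i) (rot θ G) = C (Real.sin θ) * rot θ (pderiv i G) := by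
  induction G using MvPolynomial.induction_on with
  | C a => simp [rot]
  | add p q hp hq => rw [map_add, map_add, hp, hq, map_add, map_add, mul_add]
  | mul_X p j hp =>
    rw [map_mul, Derivation.leibniz, hp, Derivation.leibniz, rot_X, map_add, map_add]
    simp only [smul_eq_mul, map_mul, pderiv_C_mul, rot_X, pderiv_X]
    rcases eq_or_ne i j with rfl | hij
    · simp
      ring
    · simp [hij]
      ring

theorem pderiv_inr_rot [DecidableEq τ] (θ : ℝ) (i : τ) (G : MvPolynomial τ ℝ) :
    pderiv (Sum.inr i) (rot θ G) = C (Real.cos θ) * rot θ (pderiv i G) := by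
  induction G using MvPolynomial.induction_on with
  | C a => simp [rot]
  | add p q hp hq => rw [map_add, map_add, hp, hq, map_add, map_add, mul_add]
  | mul_X p j hp =>
    rw [map_mul, Derivation.leibniz, hp, Derivation.leibniz, rot_X, map_add, map_add]
    simp only [smul_eq_mul, map_mul, pderiv_C_mul, rot_X, pderiv_X]
    rcases eq_or_ne i j with rfl | hij
    · simp
      ring
    · simp [hij]
      ring

theorem pderiv_inl_rename [DecidableEq τ] (i : τ) (G : MvPolynomial τ ℝ) :
    pderiv (Sum.inl i) (rename Sum.inl G : MvPolynomial (τ ⊕ τ) ℝ) =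
      rename Sum.inl (pderiv i G) := by
  have h := pderiv_inl_rot (Real.pi / 2) i G
  rw [rot_pi, rot_pi] at h
  simpa using h

theorem pderiv_inr_rename [DecidableEq τ] (i : τ) (G : MvPolynomial τ ℝ) :
    pderiv (Sum.inr i) (rename Sum.inl G : MvPolynomial (τ ⊕ τ) ℝ) = 0 := by
  have h := pderiv_inr_rot (Real.pi / 2) i G
  rw [rot_pi, rot_pi] at h
  simpa using h

theorem hasDerivAt_rot (G : MvPolynomial τ ℝ) : ∀ (F : MvPolynomial (τ ⊕ τ) ℝ) (θ : ℝ),
    HasDerivAt (fun θ => E (F * rot θ G))
      (E (F * ∑ i, (C (Real.cos θ) * X (Sum.inl i) - C (Real.sin θ) * X (Sum.inr i)) *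
        rot θ (pderiv i G))) θ := by
  classical
  induction G using MvPolynomial.induction_on with
  | C a =>
    intro F θ
    have h1 : (fun θ => E (F * rot θ (C a))) = fun _ => E (F * C a) := by
      funext θ
      simp [rot]
    rw [h1]
    simpa using hasDerivAt_const θ (E (F * C a))
  | add p q hp hq =>
    intro F θ
    have h1 : (fun θ => E (F * rot θ (p + q))) =
        fun θ => E (F * rot θ p) + E (F * rot θ q) := by
      funext θ
      rw [map_add, mul_add, map_add]
    rw [h1]
    refine ((hp F θ).add (hq F θ)).congr_deriv ?_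
    rw [← map_add, ← mul_add, ← Finset.sum_add_distrib]
    congr 2
    refine Finset.sum_congr rfl fun i _ => ?_
    rw [map_add, map_add, mul_add]
  | mul_X p j hp =>
    intro F θ
    have h1 : (fun θ => E (F * rot θ (p * X j))) =
        fun θ => Real.sin θ * E (F * X (Sum.inl j) * rot θ p) +
          Real.cos θ * E (F * X (Sum.inr j) * rot θ p) := by
      funext θ
      rw [map_mul (rot θ), rot_X, ← E_C_mul, ← E_C_mul, ← map_add]
      congr 1
      ring
    rw [h1]
    have h2 := ((Real.hasDerivAt_sin θ).mul (hp (F * X (Sum.inl j)) θ)).add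
      ((Real.hasDerivAt_cos θ).mul (hp (F * X (Sum.inr j)) θ))
    refine h2.congr_deriv ?_
    have h3 : ∀ i : τ, rot θ (pderiv i (p * X j)) =
        rot θ (pderiv i p) * rot θ (X j) + if i = j then rot θ p else 0 := by
      intro i
      rw [Derivation.leibniz, map_add]
      simp only [smul_eq_mul, map_mul, pderiv_X]
      rcases eq_or_ne i j with rfl | hij
      · simp
        ring
      · simp [hij]
        ring
    have h4 : ∑ i, (C (Real.cos θ) * X (Sum.inl i) - C (Real.sin θ) * X (Sum.inr i)) *
        rot θ (pderiv i (p * X j)) =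
        (∑ i, (C (Real.cos θ) * X (Sum.inl i) - C (Real.sin θ) * X (Sum.inr i)) *
          rot θ (pderiv i p)) * rot θ (X j) +
        (C (Real.cos θ) * X (Sum.inl j) - C (Real.sin θ) * X (Sum.inr j)) * rot θ p := by
      rw [Finset.sum_mul]
      simp_rw [h3]
      simp only [mul_add, Finset.sum_add_distrib, mul_ite, mul_zero, Finset.sum_ite_eq',
        Finset.mem_univ, if_true, mul_assoc]
    rw [h4, rot_X]
    set S := ∑ i, (C (Real.cos θ) * X (Sum.inl i) - C (Real.sin θ) * X (Sum.inr i)) *
          rot θ (pderiv i p)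
    have e1 : E (F * (S * (C (Real.sin θ) * X (Sum.inl j) + C (Real.cos θ) * X (Sum.inr j)) +
        (C (Real.cos θ) * X (Sum.inl j) - C (Real.sin θ) * X (Sum.inr j)) * rot θ p)) =
        E (C (Real.cos θ) * (F * X (Sum.inl j) * rot θ p)) +
        E (C (Real.sin θ) * (F * X (Sum.inl j) * S)) +
        (E (C (-Real.sin θ) * (F * X (Sum.inr j) * rot θ p)) +
        E (C (Real.cos θ) * (F * X (Sum.inr j) * S))) := by
      rw [← map_add, ← map_add, ← map_add]
      congr 1
      rw [C_neg]
      ring
    rw [e1, E_C_mul, E_C_mul, E_C_mul, E_C_mul]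

/-- Derivative of the interpolation. -/
theorem hasDerivAt_interp (F G : MvPolynomial τ ℝ) (θ : ℝ) :
    HasDerivAt (fun θ => E (rename Sum.inl F * rot θ G : MvPolynomial (τ ⊕ τ) ℝ))
      (Real.cos θ * ∑ i, E (rename Sum.inl (pderiv i F) * rot θ (pderiv i G) :
        MvPolynomial (τ ⊕ τ) ℝ)) θ := by
  classical
  refine (hasDerivAt_rot G (rename Sum.inl F) θ).congr_deriv ?_
  rw [Finset.mul_sum, map_sum, Finset.mul_sum]
  refine Finset.sum_congr rfl fun i _ => ?_
  have h1 : rename Sum.inl F * ((C (Real.cos θ) * X (Sum.inl i) - C (Real.sin θ) * X (Sum.inr i)) *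
        rot θ (pderiv i G)) =
      C (Real.cos θ) * (X (Sum.inl i) * (rename Sum.inl F * rot θ (pderiv i G))) +
      C (-Real.sin θ) * (X (Sum.inr i) * (rename Sum.inl F * rot θ (pderiv i G))) := by
    rw [C_neg]; ring
  rw [h1, map_add, E_C_mul, E_C_mul, E_X_mul, E_X_mul, Derivation.leibniz, Derivation.leibniz,
    pderiv_inl_rename, pderiv_inr_rename, pderiv_inl_rot, pderiv_inr_rot]
  simp only [smul_eq_mul, mul_zero, add_zero, map_add]
  have h2 : ∀ (c : ℝ) (P Q : MvPolynomial (τ ⊕ τ) ℝ), E (P * (C c * Q)) = c * E (P * Q) := by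
    intro c P Q
    rw [← E_C_mul]
    congr 1
    ring
  rw [h2, h2, mul_comm (rot θ (pderiv i G))]
  ring

theorem E_rot (H : MvPolynomial τ ℝ) (θ : ℝ) : E (rot θ H) = E H := by
  have hconst : ∀ a b : ℝ, E (rot a H) = E (rot b H) := by
    intro a b
    have hd : ∀ θ : ℝ, HasDerivAt (fun θ => E (rot θ H)) 0 θ := by
      intro θ
      have := hasDerivAt_interp 1 H θ
      simpa using this
    exact is_const_of_deriv_eq_zero (fun θ => (hd θ).differentiableAt)
      (fun θ => (hd θ).deriv) a b
  rw [hconst θ (Real.pi / 2), rot_pi, E_rename_inl]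

/-- Odd polynomials have expectation zero. -/
theorem E_odd (H : MvPolynomial τ ℝ) (h : ∀ g : τ → ℝ, eval (fun i => -g i) H = -eval g H) :
    E H = 0 := by
  have h1 : E (rot (-(Real.pi / 2)) H) = E (rename Sum.inl (-H) : MvPolynomial (τ ⊕ τ) ℝ) := by
    rw [E_apply, E_apply]
    congr 1
    funext g
    rw [eval_rot, eval_rename, map_neg, ← h]
    congr 1
    congr 1
    funext i
    simp [rotpt]
  rw [E_rot, E_rename_inl, map_neg] at h1
  linarith

/-- Covariance inequality by Gaussian interpolation. -/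
theorem cov_le {S : Type} [Fintype S] (w : S → ℝ) (F G : S → MvPolynomial τ ℝ)
    (P : MvPolynomial τ ℝ)
    (h : ∀ x z : τ → ℝ, ∑ s, w s * ∑ i, eval x (pderiv i (F s)) * eval z (pderiv i (G s)) ≤
      eval x P + eval z P) :
    ∑ s, w s * E (F s * G s) ≤ ∑ s, w s * (E (F s) * E (G s)) + 2 * E P := by
  classical
  -- the interpolation
  set φ : ℝ → ℝ := fun θ => ∑ s, w s * E (rename Sum.inl (F s) * rot θ (G s) :
    MvPolynomial (τ ⊕ τ) ℝ) with hφ
  have hder : ∀ θ, HasDerivAt φ (Real.cos θ * E (∑ s, C (w s) * ∑ i,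
      (rename Sum.inl (pderiv i (F s)) * rot θ (pderiv i (G s)) : MvPolynomial (τ ⊕ τ) ℝ))) θ := by
    intro θ
    have h1 := HasDerivAt.fun_sum (u := Finset.univ) (fun s _ =>
      (hasDerivAt_interp (F s) (G s) θ).const_mul (w s))
    refine h1.congr_deriv ?_
    rw [map_sum, Finset.mul_sum]
    refine Finset.sum_congr rfl fun s _ => ?_
    rw [E_C_mul, map_sum]
    ring
  have hbound : ∀ θ, E (∑ s, C (w s) * ∑ i,
      (rename Sum.inl (pderiv i (F s)) * rot θ (pderiv i (G s)) : MvPolynomial (τ ⊕ τ) ℝ)) ≤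
      2 * E P := by
    intro θ
    have h1 : E (∑ s, C (w s) * ∑ i,
      (rename Sum.inl (pderiv i (F s)) * rot θ (pderiv i (G s)) : MvPolynomial (τ ⊕ τ) ℝ)) ≤
      E (rename Sum.inl P + rot θ P) := by
      refine E_mono fun g => ?_
      simp only [map_sum, map_mul, eval_C, map_add, eval_rot, eval_rename]
      exact h _ _
    refine h1.trans (le_of_eq ?_)
    rw [map_add, E_rename_inl, E_rot]
    ring
  have hmono : AntitoneOn (fun θ => φ θ - 2 * E P * Real.sin θ) (Set.Icc 0 (Real.pi / 2)) := by
    refine antitoneOn_of_hasDerivWithinAt_nonpos (convex_Icc _ _) ?_ (fun θ _ =>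
      (((hder θ).sub ((Real.hasDerivAt_sin θ).const_mul (2 * E P))).hasDerivWithinAt)) ?_
    · intro θ _
      exact ((hder θ).sub ((Real.hasDerivAt_sin θ).const_mul
        (2 * E P))).continuousAt.continuousWithinAt
    · intro θ hθ
      rw [interior_Icc] at hθ
      have hc : 0 ≤ Real.cos θ := Real.cos_nonneg_of_mem_Icc
        ⟨by linarith [hθ.1, Real.pi_pos], hθ.2.le⟩
      have := mul_le_mul_of_nonneg_left (hbound θ) hc
      linarith
  have hfin := hmono (Set.left_mem_Icc.2 (by positivity)) (Set.right_mem_Icc.2 (by positivity))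
    (by positivity : (0 : ℝ) ≤ Real.pi / 2)
  simp only [Real.sin_pi_div_two, Real.sin_zero, mul_zero, sub_zero, mul_one] at hfin
  have e0 : φ 0 = ∑ s, w s * (E (F s) * E (G s)) := by
    simp only [hφ]
    refine Finset.sum_congr rfl fun s _ => ?_
    rw [rot_zero, E_rename_mul]
  have e1 : φ (Real.pi / 2) = ∑ s, w s * E (F s * G s) := by
    simp only [hφ]
    refine Finset.sum_congr rfl fun s _ => ?_
    rw [rot_pi, ← map_mul, E_rename_inl]
  rw [e0, e1] at hfin
  linarith

end Pool.Agent.Lib.H31.MC
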