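import Pool.Agent.Lib.H31.MC.Poly

/-!
# Moments of Gaussian matrix series without logarithmic factor
-/

set_option autoImplicit false

open MvPolynomial Matrix

namespace Pool.Agent.Lib.H31.MC

variable {ι d : Type} [Fintype ι] [Fintype d] [DecidableEq d]

/-- `E tr X^(2n)` -/
noncomputable def ff (A : ι → Matrix d d ℝ) (n : ℕ) : ℝ := E (trP A 1 (2 * n))

theorem eval_tr1 (A : ι → Matrix d d ℝ) (n : ℕ) (g : ι → ℝ) :
    eval g (trP A 1 n) = (Xm A g ^ n).trace := by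
  rw [eval_trP, Matrix.one_mul]

theorem trace_even_nonneg {X : Matrix d d ℝ} (hX : X.IsSymm) (n : ℕ) :
    0 ≤ (X ^ (2 * n)).trace := by
  obtain ⟨U, x, hU, hU', rfl⟩ := exists_diag X hX
  rw [trace_diag_pow hU hU']
  exact Finset.sum_nonneg fun a _ => by rw [pow_mul]; positivity

theorem E_nonneg {P : MvPolynomial ι ℝ} (h : ∀ g : ι → ℝ, 0 ≤ eval g P) : 0 ≤ E P := by
  have := E_mono (P := 0) (Q := P) (fun g => by simpa using h g)
  simpa using this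

theorem ff_nonneg {A : ι → Matrix d d ℝ} (hA : ∀ i, (A i).IsSymm) (n : ℕ) : 0 ≤ ff A n := by
  unfold ff
  refine E_nonneg fun g => ?_
  rw [eval_tr1]
  exact trace_even_nonneg (Xm_symm hA g) n

theorem ff_zero (A : ι → Matrix d d ℝ) : ff A 0 = Fintype.card d := by
  unfold ff
  have h : trP A 1 (2 * 0) = C ((Fintype.card d : ℝ)) := by
    apply MvPolynomial.funext
    intro g
    rw [eval_tr1, eval_C]
    simp
  rw [h, E_C]

/-- odd moments vanish -/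
theorem Mom_odd (A : ι → Matrix d d ℝ) {j : ℕ} (hj : Odd j) : Mom A j = 0 := by
  refine Matrix.ext fun a b => ?_
  simp only [Mom, Matrix.of_apply, Matrix.zero_apply]
  refine E_odd _ fun g => ?_
  rw [eval_PX_pow, eval_PX_pow]
  have h1 : Xm A (fun i => -g i) = -Xm A g := by
    unfold Xm
    rw [← Finset.sum_neg_distrib]
    refine Finset.sum_congr rfl fun i _ => ?_
    rw [neg_smul]
  rw [h1, hj.neg_pow]
  rfl

theorem Mom_symm {A : ι → Matrix d d ℝ} (hA : ∀ i, (A i).IsSymm) (j : ℕ) :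
    (Mom A j).IsSymm := by
  refine Matrix.ext fun a b => ?_
  simp only [Mom, Matrix.of_apply, Matrix.transpose_apply]
  congr 1
  apply MvPolynomial.funext
  intro g
  rw [eval_PX_pow, eval_PX_pow]
  have h : (Xm A g ^ j)ᵀ = Xm A g ^ j := by rw [transpose_pow, (Xm_symm hA g).eq]
  conv_lhs => rw [← h]
  rfl

/-- quadratic forms as traces -/
theorem trace_vec (y : d → ℝ) (M : Matrix d d ℝ) :
    (vecMulVec y y * M).trace = y ⬝ᵥ (M *ᵥ y) := by
  simp only [Matrix.trace, diag_apply, Matrix.mul_apply, vecMulVec_apply, dotProduct, mulVec,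
    Finset.mul_sum]
  rw [Finset.sum_comm]
  refine Finset.sum_congr rfl fun a _ => Finset.sum_congr rfl fun b _ => ?_
  ring

theorem quad_Mom (A : ι → Matrix d d ℝ) (y : d → ℝ) (n : ℕ) :
    y ⬝ᵥ (Mom A n *ᵥ y) = E (trP A (vecMulVec y y) n) := by
  rw [E_trP, trace_vec]

theorem quad_pow_even {X : Matrix d d ℝ} (hX : X.IsSymm) (n : ℕ) (y : d → ℝ) :
    y ⬝ᵥ (X ^ (2 * n) *ᵥ y) = (X ^ n *ᵥ y) ⬝ᵥ (X ^ n *ᵥ y) := by
  rw [mulVec_dot, mulVec_mulVec, transpose_pow, hX.eq, ← pow_add, two_mul]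

theorem Mom_even_nonneg {A : ι → Matrix d d ℝ} (hA : ∀ i, (A i).IsSymm) (n : ℕ) (y : d → ℝ) :
    0 ≤ y ⬝ᵥ (Mom A (2 * n) *ᵥ y) := by
  rw [quad_Mom]
  refine E_nonneg fun g => ?_
  rw [eval_trP, trace_vec, quad_pow_even (Xm_symm hA g)]
  exact dot_self_nonneg _

/-- `tr B X^(2n) ≤ c tr X^(2n)` if `B ≤ c`. -/
theorem trace_le_of_quad {B X : Matrix d d ℝ} {c : ℝ} (hX : X.IsSymm)
    (hB : ∀ y : d → ℝ, y ⬝ᵥ (B *ᵥ y) ≤ c * (y ⬝ᵥ y)) (n : ℕ) :
    (B * X ^ (2 * n)).trace ≤ c * (X ^ (2 * n)).trace := by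
  have hXt : (X ^ n)ᵀ = X ^ n := by rw [transpose_pow, hX.eq]
  have h1 : (B * X ^ (2 * n)).trace = ∑ a, (X ^ n *ᵥ Pi.single a 1) ⬝ᵥ
      (B *ᵥ (X ^ n *ᵥ Pi.single a 1)) := by
    have e1 : (B * X ^ (2 * n)).trace = (X ^ n * (B * X ^ n)).trace := by
      rw [Matrix.trace_mul_comm (X ^ n), Matrix.mul_assoc, ← pow_add, two_mul]
    rw [e1]
    simp only [Matrix.trace, diag_apply]
    refine Finset.sum_congr rfl fun a _ => ?_
    rw [mulVec_dot, hXt, mulVec_mulVec, mulVec_mulVec]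
    simp [Matrix.mul_assoc]
  have h2 : (X ^ (2 * n)).trace = ∑ a, (X ^ n *ᵥ Pi.single a 1) ⬝ᵥ
      (X ^ n *ᵥ Pi.single a 1) := by
    simp only [Matrix.trace, diag_apply]
    refine Finset.sum_congr rfl fun a _ => ?_
    rw [mulVec_dot, hXt, mulVec_mulVec, ← pow_add, ← two_mul]
    simp
  rw [h1, h2, Finset.mul_sum]
  exact Finset.sum_le_sum fun a _ => hB _

section main

variable {A : ι → Matrix d d ℝ} {s v : ℝ}

theorem TP_symm (A : ι → Matrix d d ℝ) (j l : ℕ) : TP A 1 j l = TP A 1 l j := by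
  apply MvPolynomial.funext
  intro g
  rw [eval_TP, eval_TP]
  refine Finset.sum_congr rfl fun k _ => ?_
  rw [Matrix.one_mul]
  have : A k * Xm A g ^ j * A k * Xm A g ^ l = (A k * Xm A g ^ j) * (A k * Xm A g ^ l) := by
    simp only [Matrix.mul_assoc]
  rw [this, Matrix.trace_mul_comm]
  simp only [Matrix.mul_assoc]

theorem TP_mono (hA : ∀ i, (A i).IsSymm) (l u w : ℕ) (h : Even (u + w)) :
    E (TP A 1 (2 * l + u) (2 * l + w)) ≤ E (TP A 1 (2 * l) (2 * l + (u + w))) := by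
  refine E_mono fun g => ?_
  rw [eval_TP, eval_TP]
  refine Finset.sum_le_sum fun k _ => ?_
  rw [Matrix.one_mul]
  exact trace_mono (A k) (Xm A g) (hA k) (Xm_symm hA g) l u w h

/-- decoupling of the trace moments -/
theorem T_le (hA : ∀ i, (A i).IsSymm) (hv0 : 0 ≤ v)
    (hs : ∀ x : d → ℝ, ∑ i, ((A i) *ᵥ x) ⬝ᵥ ((A i) *ᵥ x) ≤ s * (x ⬝ᵥ x))
    (hv : ∀ c : ι → ℝ, ∑ a, ∑ b, (∑ i, c i * A i a b) ^ 2 ≤ v * ∑ i, c i ^ 2)
    (j l p : ℕ) (hjl : j + l = 2 * p - 2) :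
    E (TP A 1 j l) ≤ ∑ k, (A k * Mom A j * A k * Mom A l).trace +
      4 * (j * l) * (v * s) * ff A (p - 2) := by
  have h := TP_le A 1 j l (C (v * s * 2) * trP A 1 (2 * (p - 2))) ?_
  · rw [E_C_mul] at h
    simp only [Matrix.one_mul] at h
    refine h.trans (le_of_eq ?_)
    unfold ff
    ring
  · intro x z a b c e hj hl
    simp only [Matrix.one_mul, map_mul, eval_C, eval_tr1]
    have hM : a + b + c + e = 2 * (p - 2) := by omega
    have h2 := cross_trace hA hv0 hs hv (Xm_symm hA x) (Xm_symm hA z) a b c e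
      (by rw [hM]; exact even_two_mul _)
    rw [hM] at h2
    refine h2.trans (le_of_eq ?_)
    ring

/-- main term of the decoupled trace moment -/
theorem main_le (hA : ∀ i, (A i).IsSymm)
    (hs : ∀ x : d → ℝ, ∑ i, ((A i) *ᵥ x) ⬝ᵥ ((A i) *ᵥ x) ≤ s * (x ⬝ᵥ x))
    {M : Matrix d d ℝ} {c : ℝ} (hc : 0 ≤ c)
    (hM : ∀ y : d → ℝ, y ⬝ᵥ (M *ᵥ y) ≤ c * (y ⬝ᵥ y)) (n : ℕ) :
    ∑ k, (A k * M * A k * Mom A (2 * n)).trace ≤ c * s * ff A n := by
  have h1 : ∑ k, (A k * M * A k * Mom A (2 * n)).trace =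
      E (trP A (∑ k, A k * M * A k) (2 * n)) := by
    rw [E_trP, Finset.sum_mul, Matrix.trace_sum]
  have h2 : c * s * ff A n = E (C (c * s) * trP A 1 (2 * n)) := by
    rw [E_C_mul]; rfl
  rw [h1, h2]
  refine E_mono fun g => ?_
  rw [eval_trP, map_mul, eval_C, eval_tr1]
  refine trace_le_of_quad (Xm_symm hA g) (fun y => ?_) n
  rw [Matrix.sum_mulVec, dotProduct_sum]
  have h3 : ∀ k, y ⬝ᵥ ((A k * M * A k) *ᵥ y) = (A k *ᵥ y) ⬝ᵥ (M *ᵥ (A k *ᵥ y)) := by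
    intro k
    rw [mulVec_dot, (hA k).eq, mulVec_mulVec, mulVec_mulVec, Matrix.mul_assoc]
  simp_rw [h3]
  calc ∑ k, (A k *ᵥ y) ⬝ᵥ (M *ᵥ (A k *ᵥ y)) ≤ ∑ k, c * ((A k *ᵥ y) ⬝ᵥ (A k *ᵥ y)) :=
        Finset.sum_le_sum fun k _ => hM _
    _ = c * ∑ k, ((A k *ᵥ y) ⬝ᵥ (A k *ᵥ y)) := by rw [Finset.mul_sum]
    _ ≤ c * (s * (y ⬝ᵥ y)) := mul_le_mul_of_nonneg_left (hs y) hc
    _ = _ := by ring

end main

/-! ### the critical scale -/

/-- hypotheses at the critical scale `L` -/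
structure Crit (A : ι → Matrix d d ℝ) (s v L : ℝ) (p l : ℕ) : Prop where
  hA : ∀ i, (A i).IsSymm
  hs0 : 0 ≤ s
  hv0 : 0 ≤ v
  hs : ∀ x : d → ℝ, ∑ i, ((A i) *ᵥ x) ⬝ᵥ ((A i) *ᵥ x) ≤ s * (x ⬝ᵥ x)
  hv : ∀ c : ι → ℝ, ∑ a, ∑ b, (∑ i, c i * A i a b) ^ 2 ≤ v * ∑ i, c i ^ 2
  hp : 1 ≤ p
  hL0 : 0 < L
  hLs : 200 * s ≤ L
  hL : ff A p = L ^ p
  hd : (Fintype.card d : ℝ) ≤ Real.exp p
  hpl : p ≤ 2 ^ l
  hvs : v * ((p : ℝ) + l + 1) ^ 4 * 200 ^ (l + 2) ≤ s

theorem pow_mix {R T : ℝ} (hR : 0 ≤ R) (hT : 0 ≤ T) {α β n p : ℕ} (h : α + β = 2 * n)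
    (hn : n ≤ p) : R ^ α * T ^ β ≤ (1 + R ^ p + T ^ p) ^ 2 := by
  set m := max 1 (max R T) with hm
  have h1 : 1 ≤ m := le_max_left _ _
  have hRm : R ≤ m := (le_max_left _ _).trans (le_max_right _ _)
  have hTm : T ≤ m := (le_max_right _ _).trans (le_max_right _ _)
  have hR0 : 0 ≤ R ^ p := pow_nonneg hR p
  have hT0 : 0 ≤ T ^ p := pow_nonneg hT p
  have h2 : m ^ p ≤ 1 + R ^ p + T ^ p := by
    rcases le_total (max R T) 1 with h3 | h3
    · rw [hm, max_eq_left h3, one_pow]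
      linarith
    · rw [hm, max_eq_right h3]
      rcases le_total R T with h4 | h4
      · rw [max_eq_right h4]
        linarith
      · rw [max_eq_left h4]
        linarith
  calc R ^ α * T ^ β ≤ m ^ α * m ^ β := mul_le_mul (pow_le_pow_left₀ hR hRm α)
        (pow_le_pow_left₀ hT hTm β) (pow_nonneg hT β) (by positivity)
    _ = m ^ (2 * n) := by rw [← pow_add, h]
    _ ≤ m ^ (2 * p) := pow_le_pow_right₀ h1 (by omega)
    _ = (m ^ p) ^ 2 := by rw [← pow_mul, mul_comm]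
    _ ≤ _ := pow_le_pow_left₀ (by positivity) h2 2

/-- the majorant polynomial -/
noncomputable def PP (A : ι → Matrix d d ℝ) (c L : ℝ) (p : ℕ) : MvPolynomial ι ℝ :=
  C c * (C (1 / 2) + C ((L ^ p)⁻¹) * trP A 1 (2 * p))

theorem Crit.E_PP {A : ι → Matrix d d ℝ} {s v L : ℝ} {p l : ℕ} (h : Crit A s v L p l) (c : ℝ) :
    E (PP A c L p) = 3 / 2 * c := by
  unfold PP
  rw [E_C_mul, map_add, E_C, E_C_mul]
  have h1 : E (trP A 1 (2 * p)) = L ^ p := h.hL
  rw [h1, inv_mul_cancel₀ (pow_ne_zero _ h.hL0.ne')]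
  ring

theorem Crit.cross_vec {A : ι → Matrix d d ℝ} {s v L : ℝ} {p l : ℕ} (h : Crit A s v L p l)
    (y : d → ℝ) (n : ℕ) (hn : n ≤ p) (x z : ι → ℝ) (a b c e : ℕ)
    (habce : a + b + c + e = 2 * n) :
    ∑ k, ∑ i, (vecMulVec y y * A k * Xm A x ^ a * A i * Xm A x ^ b * A k * Xm A z ^ c * A i *
      Xm A z ^ e).trace ≤ eval x (PP A (v * s * (y ⬝ᵥ y) * L ^ n) L p) +
        eval z (PP A (v * s * (y ⬝ᵥ y) * L ^ n) L p) := by
  have hX := Xm_symm h.hA x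
  have hZ := Xm_symm h.hA z
  obtain ⟨r, hr0, hr1, hr2⟩ := exists_normsq (Xm A x) hX
  obtain ⟨t, ht0, ht1, ht2⟩ := exists_normsq (Xm A z) hZ
  have hr3 := hr2 p h.hp
  have ht3 := ht2 p h.hp
  have hc := cross_op h.hA h.hs0 h.hv0 h.hs h.hv hX hr0 ht0 hr1 ht1 a b c e y
  have e0 : ∀ k i, (vecMulVec y y * A k * Xm A x ^ a * A i * Xm A x ^ b * A k * Xm A z ^ c *
      A i * Xm A z ^ e).trace = y ⬝ᵥ ((A k * Xm A x ^ a * A i * Xm A x ^ b * A k * Xm A z ^ c *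
      A i * Xm A z ^ e) *ᵥ y) := by
    intro k i
    rw [← trace_vec]
    simp only [Matrix.mul_assoc]
  simp_rw [e0]
  set Su := ∑ k, ∑ i, y ⬝ᵥ ((A k * Xm A x ^ a * A i * Xm A x ^ b * A k * Xm A z ^ c *
      A i * Xm A z ^ e) *ᵥ y) with hSu
  have hL0 := h.hL0
  have hy := dot_self_nonneg y
  have hs0 := h.hs0
  have hv0 := h.hv0
  set V := v * s * (y ⬝ᵥ y) with hV
  have hV0 : 0 ≤ V := by positivity
  -- scaling
  have h1 : r ^ (a + b) * t ^ (c + e) = L ^ (2 * n) * ((r / L) ^ (a + b) * (t / L) ^ (c + e)) := by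
    rw [div_pow, div_pow, ← habce, add_assoc (a + b) c e, pow_add L (a + b)]
    field_simp
  have h2 := pow_mix (R := r / L) (T := t / L) (by positivity) (by positivity)
    (α := a + b) (β := c + e) (n := n) (p := p) (by omega) hn
  have h3 : Su ^ 2 ≤ (V * L ^ n * (1 + (r / L) ^ p + (t / L) ^ p)) ^ 2 := by
    calc Su ^ 2 ≤ V ^ 2 * (r ^ (a + b) * t ^ (c + e)) := hc
      _ = V ^ 2 * (L ^ (2 * n) * ((r / L) ^ (a + b) * (t / L) ^ (c + e))) := by rw [h1]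
      _ ≤ V ^ 2 * (L ^ (2 * n) * (1 + (r / L) ^ p + (t / L) ^ p) ^ 2) := by
          refine mul_le_mul_of_nonneg_left (mul_le_mul_of_nonneg_left h2 (by positivity))
            (by positivity)
      _ = _ := by ring
  have h4 : Su ≤ V * L ^ n * (1 + (r / L) ^ p + (t / L) ^ p) :=
    (abs_le_of_sq_le_sq' h3 (by positivity)).2
  refine h4.trans ?_
  unfold PP
  simp only [map_mul, map_add, eval_C, eval_tr1]
  have h5 : (r / L) ^ p ≤ (L ^ p)⁻¹ * (Xm A x ^ (2 * p)).trace := by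
    rw [div_pow, div_eq_inv_mul]
    exact mul_le_mul_of_nonneg_left hr3 (by positivity)
  have h6 : (t / L) ^ p ≤ (L ^ p)⁻¹ * (Xm A z ^ (2 * p)).trace := by
    rw [div_pow, div_eq_inv_mul]
    exact mul_le_mul_of_nonneg_left ht3 (by positivity)
  have h7 : V * L ^ n * (1 + (r / L) ^ p + (t / L) ^ p) ≤
      V * L ^ n * (1 + (L ^ p)⁻¹ * (Xm A x ^ (2 * p)).trace +
        (L ^ p)⁻¹ * (Xm A z ^ (2 * p)).trace) :=
    mul_le_mul_of_nonneg_left (by linarith) (by positivity)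
  refine h7.trans (le_of_eq ?_)
  ring

/-- main term of the vector moment -/
theorem main_vec {A : ι → Matrix d d ℝ} {s : ℝ} (hA : ∀ i, (A i).IsSymm) (hs0 : 0 ≤ s)
    (hs : ∀ x : d → ℝ, ∑ i, ((A i) *ᵥ x) ⬝ᵥ ((A i) *ᵥ x) ≤ s * (x ⬝ᵥ x))
    {M N : Matrix d d ℝ} {g g' : ℝ} (hg : 0 ≤ g) (hg' : 0 ≤ g')
    (hM : ∀ y : d → ℝ, (M *ᵥ y) ⬝ᵥ (M *ᵥ y) ≤ g ^ 2 * (y ⬝ᵥ y))
    (hN : ∀ y : d → ℝ, (N *ᵥ y) ⬝ᵥ (N *ᵥ y) ≤ g' ^ 2 * (y ⬝ᵥ y)) (y : d → ℝ) :
    ∑ k, (vecMulVec y y * A k * M * A k * N).trace ≤ s * g * g' * (y ⬝ᵥ y) := by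
  have h1 : ∀ k, (vecMulVec y y * A k * M * A k * N).trace =
      (A k *ᵥ y) ⬝ᵥ (M *ᵥ (A k *ᵥ (N *ᵥ y))) := by
    intro k
    rw [mulVec_dot, (hA k).eq]
    simp only [mulVec_mulVec, Matrix.mul_assoc]
    rw [← trace_vec]
  simp_rw [h1]
  have hy := dot_self_nonneg y
  have h2 : (∑ k, (A k *ᵥ y) ⬝ᵥ (M *ᵥ (A k *ᵥ (N *ᵥ y)))) ^ 2 ≤
      (∑ k, (A k *ᵥ y) ⬝ᵥ (A k *ᵥ y)) *
        ∑ k, (M *ᵥ (A k *ᵥ (N *ᵥ y))) ⬝ᵥ (M *ᵥ (A k *ᵥ (N *ᵥ y))) := by
    have := Finset.sum_mul_sq_le_sq_mul_sq (Finset.univ : Finset (ι × d))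
      (fun x => (A x.1 *ᵥ y) x.2) (fun x => (M *ᵥ (A x.1 *ᵥ (N *ᵥ y))) x.2)
    simpa only [Fintype.sum_prod_type, dotProduct, sq] using this
  have h3 : ∑ k, (M *ᵥ (A k *ᵥ (N *ᵥ y))) ⬝ᵥ (M *ᵥ (A k *ᵥ (N *ᵥ y))) ≤
      g ^ 2 * (s * (g' ^ 2 * (y ⬝ᵥ y))) := by
    calc ∑ k, (M *ᵥ (A k *ᵥ (N *ᵥ y))) ⬝ᵥ (M *ᵥ (A k *ᵥ (N *ᵥ y))) ≤
          ∑ k, g ^ 2 * ((A k *ᵥ (N *ᵥ y)) ⬝ᵥ (A k *ᵥ (N *ᵥ y))) :=
          Finset.sum_le_sum fun k _ => hM _
      _ = g ^ 2 * ∑ k, ((A k *ᵥ (N *ᵥ y)) ⬝ᵥ (A k *ᵥ (N *ᵥ y))) := by rw [Finset.mul_sum]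
      _ ≤ g ^ 2 * (s * ((N *ᵥ y) ⬝ᵥ (N *ᵥ y))) :=
          mul_le_mul_of_nonneg_left (hs _) (by positivity)
      _ ≤ _ := mul_le_mul_of_nonneg_left (mul_le_mul_of_nonneg_left (hN y) hs0) (by positivity)
  have h4 : (∑ k, (A k *ᵥ y) ⬝ᵥ (M *ᵥ (A k *ᵥ (N *ᵥ y)))) ^ 2 ≤
      (s * g * g' * (y ⬝ᵥ y)) ^ 2 := by
    calc _ ≤ _ := h2
      _ ≤ (s * (y ⬝ᵥ y)) * (g ^ 2 * (s * (g' ^ 2 * (y ⬝ᵥ y)))) := by
          refine mul_le_mul (hs y) h3 ?_ (by positivity)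
          exact Finset.sum_nonneg fun k _ => dot_self_nonneg _
      _ = _ := by ring
  exact (abs_le_of_sq_le_sq' h4 (by positivity)).2

/-- sums over even and odd indices -/
theorem sum_range_odd (f : ℕ → ℝ) (n : ℕ) : ∑ j ∈ Finset.range (2 * n + 1), f j =
    ∑ i ∈ Finset.range (n + 1), f (2 * i) + ∑ i ∈ Finset.range n, f (2 * i + 1) := by
  induction n with
  | zero => simp
  | succ n ih =>
    rw [show 2 * (n + 1) + 1 = (2 * n + 1) + 1 + 1 by ring, Finset.sum_range_succ,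
      Finset.sum_range_succ, ih, Finset.sum_range_succ (fun i => f (2 * i)) (n + 1),
      Finset.sum_range_succ (fun i => f (2 * i + 1)) n]
    rw [show 2 * (n + 1) = 2 * n + 1 + 1 by ring]
    ring

/-- the bound for small moments -/
noncomputable def gb (L : ℝ) (q : ℕ) : ℝ := 2 ^ q * (catalan q : ℝ) * (L / 200) ^ q

theorem gb_nonneg {L : ℝ} (hL : 0 ≤ L) (q : ℕ) : 0 ≤ gb L q := by
  unfold gb; positivity

theorem gb_conv (L : ℝ) (n : ℕ) :
    ∑ i ∈ Finset.range (n + 1), gb L i * gb L (n - i) =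
      2 ^ n * (catalan (n + 1) : ℝ) * (L / 200) ^ n := by
  rw [catalan_succ]
  push_cast
  rw [Finset.mul_sum, Finset.sum_mul, ← Fin.sum_univ_eq_sum_range (fun i => gb L i * gb L (n - i))]
  refine Finset.sum_congr rfl fun i _ => ?_
  have h1 : (i : ℕ) + (n - (i : ℕ)) = n := by omega
  unfold gb
  calc _ = 2 ^ ((i : ℕ) + (n - (i : ℕ))) * ((catalan i : ℝ) * (catalan (n - i) : ℝ)) *
        (L / 200) ^ ((i : ℕ) + (n - (i : ℕ))) := by rw [pow_add, pow_add]; ring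
    _ = _ := by rw [h1]

theorem gb_le {L : ℝ} (hL : 0 ≤ L) (q : ℕ) : gb L q ≤ (L / 25) ^ q := by
  unfold gb
  have h1 : (catalan q : ℝ) ≤ 4 ^ q := by
    have h2 : catalan q ≤ Nat.centralBinom q := by
      rw [catalan_eq_centralBinom_div]
      exact Nat.div_le_self _ _
    have h3 : Nat.centralBinom q ≤ 4 ^ q := by
      unfold Nat.centralBinom
      calc (2 * q).choose q ≤ 2 ^ (2 * q) := Nat.choose_le_two_pow _ _
        _ = 4 ^ q := by rw [pow_mul]; norm_num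
    exact_mod_cast h2.trans h3
  calc 2 ^ q * (catalan q : ℝ) * (L / 200) ^ q ≤ 2 ^ q * 4 ^ q * (L / 200) ^ q := by
        refine mul_le_mul_of_nonneg_right (mul_le_mul_of_nonneg_left h1 (by positivity))
          (by positivity)
    _ = _ := by rw [← mul_pow, ← mul_pow]; congr 1; ring

theorem catalan_pos' (q : ℕ) : 1 ≤ catalan q := by
  induction q using Nat.strong_induction_on with
  | _ q ih =>
    rcases q with _ | q
    · simp
    · rw [catalan_succ]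
      have h1 := Finset.single_le_sum (f := fun i : Fin q.succ => catalan i * catalan (q - i))
        (fun i _ => Nat.zero_le _) (Finset.mem_univ 0)
      refine le_trans ?_ h1
      have h2 := ih q (by omega)
      simpa using h2

theorem mul_le_sq_half {j l n : ℕ} (h : j + l = 2 * n) : (j : ℝ) * l ≤ (n : ℝ) ^ 2 := by
  have h1 : (j : ℝ) + l = 2 * n := by exact_mod_cast h
  nlinarith [sq_nonneg ((j : ℝ) - l)]

theorem Crit.term_vec {A : ι → Matrix d d ℝ} {s v L : ℝ} {p l : ℕ} (h : Crit A s v L p l)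
    (y : d → ℝ) (n : ℕ) (hn : n ≤ p) (j l' : ℕ) (hj : j + l' = 2 * n) :
    E (TP A (vecMulVec y y) j l') ≤
      ∑ k, (vecMulVec y y * A k * Mom A j * A k * Mom A l').trace +
        3 * (n : ℝ) ^ 2 * (v * s * (y ⬝ᵥ y) * L ^ (n - 1)) := by
  have h1 := TP_le A (vecMulVec y y) j l' (PP A (v * s * (y ⬝ᵥ y) * L ^ (n - 1)) L p) ?_
  · rw [h.E_PP] at h1
    refine h1.trans ?_
    have h2 := mul_le_sq_half hj
    have h3 : 0 ≤ v * s * (y ⬝ᵥ y) * L ^ (n - 1) := by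
      have := h.hv0; have := h.hs0; have := dot_self_nonneg y; have := h.hL0
      positivity
    nlinarith [mul_le_mul_of_nonneg_right h2 h3]
  · intro x z a b c e hab hce
    exact h.cross_vec y (n - 1) (by omega) x z a b c e (by omega)

theorem Crit.err_le {A : ι → Matrix d d ℝ} {s v L : ℝ} {p l : ℕ} (h : Crit A s v L p l)
    (n : ℕ) (hnl : n + 1 ≤ l) (hnp : n + 1 ≤ p) :
    (2 * (n : ℝ) + 1) * (3 * (n : ℝ) ^ 2 * (v * s * L ^ (n - 1))) ≤
      2 ^ n * (L / 200) ^ (n + 1) := by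
  have hL0 := h.hL0
  have hv0 := h.hv0
  have hs0 := h.hs0
  rcases Nat.eq_zero_or_pos n with h0 | h0
  · subst h0
    simp
    positivity
  · have hnl' : (n : ℝ) + 1 ≤ l := by exact_mod_cast hnl
    have hnp' : (n : ℝ) + 1 ≤ p := by exact_mod_cast hnp
    have hn0 : (0 : ℝ) ≤ n := Nat.cast_nonneg n
    have h1 : (2 * (n : ℝ) + 1) * (3 * (n : ℝ) ^ 2) ≤ ((p : ℝ) + l + 1) ^ 4 := by
      have h2 : 2 * (n : ℝ) + 3 ≤ (p : ℝ) + l + 1 := by linarith
      have h3 : (2 * (n : ℝ) + 3) ^ 4 ≤ ((p : ℝ) + l + 1) ^ 4 :=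
        pow_le_pow_left₀ (by positivity) h2 4
      refine le_trans ?_ h3
      nlinarith [mul_nonneg hn0 hn0, mul_nonneg (mul_nonneg hn0 hn0) hn0,
        mul_nonneg (mul_nonneg (mul_nonneg hn0 hn0) hn0) hn0]
    have h4 : (200 : ℝ) ^ (n + 1) ≤ 200 ^ (l + 2) :=
      pow_le_pow_right₀ (by norm_num) (by omega)
    have h5 : v * ((2 * (n : ℝ) + 1) * (3 * (n : ℝ) ^ 2)) * 200 ^ (n + 1) ≤ s := by
      refine le_trans ?_ h.hvs
      refine mul_le_mul (mul_le_mul_of_nonneg_left h1 hv0) h4 (by positivity) (by positivity)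
    have h6 : s * s ≤ 2 ^ n * L ^ 2 := by
      have h7 : s ≤ L := by linarith [h.hLs]
      have h8 : (1 : ℝ) ≤ 2 ^ n := one_le_pow₀ (by norm_num)
      have h9 : s * s ≤ L ^ 2 := by rw [sq]; exact mul_le_mul h7 h7 hs0 hL0.le
      nlinarith [sq_nonneg L, mul_le_mul_of_nonneg_right h8 (sq_nonneg L)]
    have e1 : L ^ (n + 1) = L ^ (n - 1) * L ^ 2 := by
      rw [← pow_add]; congr 1; omega
    rw [div_pow, e1, mul_div_assoc', le_div_iff₀ (by positivity)]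
    calc (2 * (n : ℝ) + 1) * (3 * (n : ℝ) ^ 2 * (v * s * L ^ (n - 1))) * 200 ^ (n + 1) =
          (v * ((2 * (n : ℝ) + 1) * (3 * (n : ℝ) ^ 2)) * 200 ^ (n + 1)) * s * L ^ (n - 1) := by
          ring
      _ ≤ s * s * L ^ (n - 1) := by
          refine mul_le_mul_of_nonneg_right (mul_le_mul_of_nonneg_right h5 hs0) (by positivity)
      _ ≤ 2 ^ n * L ^ 2 * L ^ (n - 1) := mul_le_mul_of_nonneg_right h6 (by positivity)
      _ = _ := by ring

/-- bound for the small moments -/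
theorem Crit.G {A : ι → Matrix d d ℝ} {s v L : ℝ} {p l : ℕ} (h : Crit A s v L p l) :
    ∀ q : ℕ, q ≤ l → q ≤ p → ∀ y : d → ℝ, y ⬝ᵥ (Mom A (2 * q) *ᵥ y) ≤ gb L q * (y ⬝ᵥ y) := by
  intro q
  induction q using Nat.strong_induction_on with
  | _ q ih =>
  intro hql hqp y
  have hL0 := h.hL0
  have hv0 := h.hv0
  have hs0 := h.hs0
  have hy := dot_self_nonneg y
  rcases Nat.eq_zero_or_pos q with h0 | h0
  · subst h0
    have h1 : trP A (vecMulVec y y) (2 * 0) = C (y ⬝ᵥ y) := by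
      apply MvPolynomial.funext
      intro g
      rw [eval_trP, eval_C, trace_vec]
      simp
    rw [quad_Mom, h1, E_C]
    simp [gb]
  · obtain ⟨n, rfl⟩ : ∃ n, q = n + 1 := ⟨q - 1, by omega⟩
    rw [quad_Mom, show 2 * (n + 1) = (2 * n + 1) + 1 by ring, E_trP_succ, sum_range_odd]
    have hN : ∀ i, i ≤ n → ∀ y : d → ℝ, (Mom A (2 * i) *ᵥ y) ⬝ᵥ (Mom A (2 * i) *ᵥ y) ≤
        (gb L i) ^ 2 * (y ⬝ᵥ y) := fun i hi =>
      psd_norm (Mom_symm h.hA _) (Mom_even_nonneg h.hA i) (ih i (by omega) (by omega) (by omega))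
    set er := 3 * (n : ℝ) ^ 2 * (v * s * (y ⬝ᵥ y) * L ^ (n - 1)) with her
    have hev : ∑ i ∈ Finset.range (n + 1), E (TP A (vecMulVec y y) (2 * i)
        (2 * n + 1 - 1 - 2 * i)) ≤
        ∑ i ∈ Finset.range (n + 1), (s * (y ⬝ᵥ y) * (gb L i * gb L (n - i)) + er) := by
      refine Finset.sum_le_sum fun i hi => ?_
      have hi' := Finset.mem_range.1 hi
      have e1 : 2 * n + 1 - 1 - 2 * i = 2 * (n - i) := by omega
      rw [e1]
      refine (h.term_vec y n (by omega) (2 * i) (2 * (n - i)) (by omega)).trans ?_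
      have h2 := main_vec h.hA hs0 h.hs (gb_nonneg hL0.le i) (gb_nonneg hL0.le (n - i))
        (hN i (by omega)) (hN (n - i) (by omega)) y
      have h3 : s * gb L i * gb L (n - i) * (y ⬝ᵥ y) =
        s * (y ⬝ᵥ y) * (gb L i * gb L (n - i)) := by ring
      rw [h3] at h2
      linarith
    have hod : ∑ i ∈ Finset.range n, E (TP A (vecMulVec y y) (2 * i + 1)
        (2 * n + 1 - 1 - (2 * i + 1))) ≤ ∑ i ∈ Finset.range n, er := by
      refine Finset.sum_le_sum fun i hi => ?_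
      have hi' := Finset.mem_range.1 hi
      refine (h.term_vec y n (by omega) (2 * i + 1) (2 * n + 1 - 1 - (2 * i + 1))
        (by omega)).trans ?_
      rw [Mom_odd A (by exact ⟨i, rfl⟩ : Odd (2 * i + 1))]
      simp [her]
    have hsum : ∑ i ∈ Finset.range (n + 1), (s * (y ⬝ᵥ y) * (gb L i * gb L (n - i)) + er) +
        ∑ i ∈ Finset.range n, er = s * (y ⬝ᵥ y) * (2 ^ n * (catalan (n + 1) : ℝ) *
          (L / 200) ^ n) + (2 * (n : ℝ) + 1) * er := by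
      rw [Finset.sum_add_distrib, ← Finset.mul_sum, gb_conv]
      simp only [Finset.sum_const, Finset.card_range, nsmul_eq_mul]
      push_cast
      ring
    have herr : (2 * (n : ℝ) + 1) * er ≤ 2 ^ n * (L / 200) ^ (n + 1) * (y ⬝ᵥ y) := by
      have := mul_le_mul_of_nonneg_right (h.err_le n hql hqp) hy
      refine le_trans (le_of_eq ?_) this
      rw [her]; ring
    have hcat : (1 : ℝ) ≤ (catalan (n + 1) : ℝ) := by exact_mod_cast catalan_pos' (n + 1)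
    have hmain : s * (y ⬝ᵥ y) * (2 ^ n * (catalan (n + 1) : ℝ) * (L / 200) ^ n) ≤
        2 ^ n * (catalan (n + 1) : ℝ) * (L / 200) ^ (n + 1) * (y ⬝ᵥ y) := by
      have h4 : s ≤ L / 200 := by linarith [h.hLs]
      have h5 : 0 ≤ 2 ^ n * (catalan (n + 1) : ℝ) * (L / 200) ^ n * (y ⬝ᵥ y) := by positivity
      have h6 := mul_le_mul_of_nonneg_right h4 h5
      calc _ = s * (2 ^ n * (catalan (n + 1) : ℝ) * (L / 200) ^ n * (y ⬝ᵥ y)) := by ring
        _ ≤ _ := h6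
        _ = _ := by rw [pow_succ (L / 200)]; ring
    have herr2 : 2 ^ n * (L / 200) ^ (n + 1) * (y ⬝ᵥ y) ≤
        2 ^ n * (catalan (n + 1) : ℝ) * (L / 200) ^ (n + 1) * (y ⬝ᵥ y) := by
      have h7 : 0 ≤ 2 ^ n * (L / 200) ^ (n + 1) * (y ⬝ᵥ y) := by positivity
      have h8 := mul_le_mul_of_nonneg_right hcat h7
      calc _ = 1 * (2 ^ n * (L / 200) ^ (n + 1) * (y ⬝ᵥ y)) := by ring
        _ ≤ _ := h8
        _ = _ := by ring
    calc _ ≤ _ := add_le_add hev hod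
      _ = _ := hsum
      _ ≤ 2 ^ n * (catalan (n + 1) : ℝ) * (L / 200) ^ (n + 1) * (y ⬝ᵥ y) +
          2 ^ n * (catalan (n + 1) : ℝ) * (L / 200) ^ (n + 1) * (y ⬝ᵥ y) := by linarith
      _ = _ := by unfold gb; rw [pow_succ 2 n]; ring

theorem trace_interp {X : Matrix d d ℝ} (hX : X.IsSymm) {L : ℝ} (hL : 0 < L) {m p : ℕ}
    (hm : m ≤ p) : (X ^ (2 * m)).trace ≤ (Fintype.card d : ℝ) * (L / Real.exp 1) ^ m +
      ((L / Real.exp 1) ^ (p - m))⁻¹ * (X ^ (2 * p)).trace := by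
  obtain ⟨U, x, hU, hU', rfl⟩ := exists_diag X hX
  rw [trace_diag_pow hU hU', trace_diag_pow hU hU', Finset.mul_sum]
  have h0 : 0 < L / Real.exp 1 := by positivity
  set w := L / Real.exp 1 with hw
  have h1 : (Fintype.card d : ℝ) * w ^ m = ∑ _a : d, w ^ m := by
    simp [Finset.sum_const]
  rw [h1, ← Finset.sum_add_distrib]
  refine Finset.sum_le_sum fun a _ => ?_
  rw [pow_mul, pow_mul]
  have h2 : 0 ≤ x a ^ 2 := sq_nonneg _
  rcases le_total (x a ^ 2) w with h3 | h3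
  · have h4 := pow_le_pow_left₀ h2 h3 m
    have h5 : 0 ≤ (w ^ (p - m))⁻¹ * (x a ^ 2) ^ p := by positivity
    linarith
  · have h4 : (x a ^ 2) ^ p = (x a ^ 2) ^ m * (x a ^ 2) ^ (p - m) := by
      rw [← pow_add]; congr 1; omega
    have h5 := pow_le_pow_left₀ h0.le h3 (p - m)
    have h6 : (x a ^ 2) ^ m ≤ (w ^ (p - m))⁻¹ * (x a ^ 2) ^ p := by
      rw [h4, inv_mul_eq_div, le_div_iff₀ (by positivity)]
      exact mul_le_mul_of_nonneg_left h5 (by positivity)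
    have h7 : 0 ≤ w ^ m := by positivity
    linarith

theorem Crit.F {A : ι → Matrix d d ℝ} {s v L : ℝ} {p l : ℕ} (h : Crit A s v L p l)
    {m : ℕ} (hm : m ≤ p) : ff A m ≤ 2 * Real.exp 1 ^ (p - m) * L ^ m := by
  have hL0 := h.hL0
  set w := L / Real.exp 1 with hw
  have hw0 : 0 < w := by positivity
  have h1 : ff A m ≤ (Fintype.card d : ℝ) * w ^ m + (w ^ (p - m))⁻¹ * ff A p := by
    have h2 : (Fintype.card d : ℝ) * w ^ m + (w ^ (p - m))⁻¹ * ff A p =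
        E (C ((Fintype.card d : ℝ) * w ^ m) + C ((w ^ (p - m))⁻¹) * trP A 1 (2 * p)) := by
      rw [map_add, E_C, E_C_mul]
      rfl
    rw [h2]
    refine E_mono fun g => ?_
    simp only [eval_tr1, map_add, map_mul, eval_C]
    have := trace_interp (Xm_symm h.hA g) hL0 hm
    simpa only [map_mul, eval_C, ← hw] using this
  refine h1.trans ?_
  rw [h.hL]
  have e1 : Real.exp (p : ℝ) = Real.exp 1 ^ (p - m) * Real.exp 1 ^ m := by
    rw [← pow_add, Nat.sub_add_cancel hm, ← Real.exp_nat_mul, mul_one]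
  have h3 : (Fintype.card d : ℝ) * w ^ m ≤ Real.exp 1 ^ (p - m) * L ^ m := by
    calc (Fintype.card d : ℝ) * w ^ m ≤ Real.exp p * w ^ m :=
          mul_le_mul_of_nonneg_right h.hd (by positivity)
      _ = Real.exp 1 ^ (p - m) * L ^ m := by
          rw [e1, hw, div_pow]
          field_simp
  have h4 : (w ^ (p - m))⁻¹ * L ^ p = Real.exp 1 ^ (p - m) * L ^ m := by
    have : L ^ p = L ^ (p - m) * L ^ m := by rw [← pow_add, Nat.sub_add_cancel hm]
    rw [this, hw, div_pow]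
    field_simp
  rw [h4]
  linarith

theorem Crit.err2 {A : ι → Matrix d d ℝ} {s v L : ℝ} {p l : ℕ} (h : Crit A s v L p l)
    {j l' : ℕ} (hj : j + l' = 2 * p - 2) :
    4 * ((j : ℝ) * l') * (v * s) * ff A (p - 2) ≤ L ^ p / (200 * p) := by
  have hL0 := h.hL0
  have hv0 := h.hv0
  have hs0 := h.hs0
  have hp1 := h.hp
  have hp0 : (0 : ℝ) < p := by exact_mod_cast hp1
  rcases Nat.lt_or_ge 1 p with hp | hp
  · have h1 := h.F (m := p - 2) (by omega)
    have e1 : p - (p - 2) = 2 := by omega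
    rw [e1] at h1
    have he : Real.exp 1 < 3 := Real.exp_one_lt_three
    have he0 := Real.exp_pos 1
    have h2 : ff A (p - 2) ≤ 18 * L ^ (p - 2) := by
      refine h1.trans (mul_le_mul_of_nonneg_right ?_ (by positivity))
      nlinarith
    have h3 : (j : ℝ) * l' ≤ (p : ℝ) ^ 2 := by
      have h4 := mul_le_sq_half (j := j) (l := l') (n := p - 1) (by omega)
      refine h4.trans ?_
      have : ((p - 1 : ℕ) : ℝ) ≤ p := by exact_mod_cast Nat.sub_le p 1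
      exact pow_le_pow_left₀ (Nat.cast_nonneg _) this 2
    have h5 : L ^ p = L ^ (p - 2) * L ^ 2 := by rw [← pow_add]; congr 1; omega
    have h6 : v * (p : ℝ) ^ 3 * 40000 ≤ s := by
      refine le_trans ?_ h.hvs
      have h7 : (p : ℝ) ^ 3 ≤ ((p : ℝ) + l + 1) ^ 4 := by
        have hl0 : (0 : ℝ) ≤ l := Nat.cast_nonneg l
        have h8 : (p : ℝ) ^ 3 ≤ ((p : ℝ) + l + 1) ^ 3 :=
          pow_le_pow_left₀ hp0.le (by linarith) 3
        refine h8.trans (pow_le_pow_right₀ (by linarith) (by norm_num))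
      have h8 : (40000 : ℝ) ≤ 200 ^ (l + 2) := by
        have : (200 : ℝ) ^ 2 ≤ 200 ^ (l + 2) := pow_le_pow_right₀ (by norm_num) (by omega)
        norm_num at this ⊢
        exact this
      exact mul_le_mul (mul_le_mul_of_nonneg_left h7 hv0) h8 (by norm_num) (by positivity)
    rw [le_div_iff₀ (by positivity), h5]
    have hff := ff_nonneg h.hA (p - 2)
    have h9 : s * s * 40000 ≤ L ^ 2 := by
      nlinarith [h.hLs]
    calc 4 * ((j : ℝ) * l') * (v * s) * ff A (p - 2) * (200 * p) ≤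
          4 * ((p : ℝ) ^ 2) * (v * s) * (18 * L ^ (p - 2)) * (200 * p) := by
          refine mul_le_mul_of_nonneg_right ?_ (by positivity)
          refine mul_le_mul ?_ h2 hff (by positivity)
          refine mul_le_mul_of_nonneg_right ?_ (by positivity)
          linarith
      _ = (v * (p : ℝ) ^ 3 * 40000) * s * L ^ (p - 2) * (14400 / 40000) := by ring
      _ ≤ s * s * L ^ (p - 2) * (14400 / 40000) := by
          refine mul_le_mul_of_nonneg_right (mul_le_mul_of_nonneg_right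
            (mul_le_mul_of_nonneg_right h6 hs0) (by positivity)) (by norm_num)
      _ ≤ s * s * L ^ (p - 2) * 40000 :=
          mul_le_mul_of_nonneg_left (by norm_num) (by positivity)
      _ = (s * s * 40000) * L ^ (p - 2) := by ring
      _ ≤ L ^ 2 * L ^ (p - 2) := mul_le_mul_of_nonneg_right h9 (by positivity)
      _ = _ := by ring
  · have hp' : p = 1 := by omega
    subst hp'
    have hj0 : j = 0 := by omega
    subst hj0
    simp
    positivity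

theorem Crit.term_even {A : ι → Matrix d d ℝ} {s v L : ℝ} {p l : ℕ} (h : Crit A s v L p l)
    {i : ℕ} (hi : i ≤ l) (hip : i + 1 ≤ p) :
    E (TP A 1 (2 * i) (2 * (p - 1 - i))) ≤ 1 / 36 * (1 / 8) ^ i * L ^ p + L ^ p / (200 * p) := by
  have hL0 := h.hL0
  have hs0 := h.hs0
  have h1 := T_le h.hA h.hv0 h.hs h.hv (2 * i) (2 * (p - 1 - i)) p (by omega)
  have h2 := h.err2 (j := 2 * i) (l' := 2 * (p - 1 - i)) (by omega)
  have h3 := main_le h.hA h.hs (M := Mom A (2 * i)) (gb_nonneg hL0.le i)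
    (h.G i hi (by omega)) (p - 1 - i)
  have h4 := gb_le hL0.le i
  have h5 := h.F (m := p - 1 - i) (by omega)
  have e1 : p - (p - 1 - i) = i + 1 := by omega
  rw [e1] at h5
  have hff := ff_nonneg h.hA (p - 1 - i)
  have he0 := Real.exp_pos 1
  have he1 : Real.exp 1 ≤ 2.7182818286 := Real.exp_one_lt_d9.le
  have h6 : gb L i * s * ff A (p - 1 - i) ≤ 1 / 36 * (1 / 8) ^ i * L ^ p := by
    have e2 : L ^ p = L ^ i * L * L ^ (p - 1 - i) := by
      rw [← pow_succ, ← pow_add]; congr 1; omega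
    calc gb L i * s * ff A (p - 1 - i) ≤
          (L / 25) ^ i * (L / 200) * (2 * Real.exp 1 ^ (i + 1) * L ^ (p - 1 - i)) := by
          refine mul_le_mul (mul_le_mul h4 (by linarith [h.hLs]) hs0 (by positivity)) h5 hff
            (by positivity)
      _ = (Real.exp 1 / 100) * (Real.exp 1 / 25) ^ i * L ^ p := by
          rw [e2, div_pow, div_pow, pow_succ (Real.exp 1)]
          field_simp
          ring
      _ ≤ 1 / 36 * (1 / 8) ^ i * L ^ p := by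
          refine mul_le_mul_of_nonneg_right ?_ (by positivity)
          refine mul_le_mul ?_ (pow_le_pow_left₀ (by positivity) ?_ i) (by positivity)
            (by norm_num)
          · linarith
          · linarith
  linarith

/-- bound for one term of the trace moment -/
theorem Crit.term {A : ι → Matrix d d ℝ} {s v L : ℝ} {p l : ℕ} (h : Crit A s v L p l)
    {j j' : ℕ} (hj : j + j' = 2 * p - 2) (hjj : j ≤ j') :
    E (TP A 1 j j') ≤ 1 / 36 * ((1 / 8) ^ (j / 2) + (1 / 8) ^ l) * L ^ p +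
      L ^ p / (200 * p) := by
  have hL0 := h.hL0
  have hp := h.hp
  rcases Nat.lt_or_ge (2 * l) j with h1 | h1
  · obtain ⟨u, rfl⟩ : ∃ u, j = 2 * l + u := ⟨j - 2 * l, by omega⟩
    obtain ⟨w, rfl⟩ : ∃ w, j' = 2 * l + w := ⟨j' - 2 * l, by omega⟩
    have h2 := TP_mono h.hA l u w (by exact ⟨p - 1 - 2 * l, by omega⟩)
    have e1 : 2 * l + (u + w) = 2 * (p - 1 - l) := by omega
    rw [e1] at h2
    have h3 := h.term_even (i := l) le_rfl (by omega)
    have h4 : (0 : ℝ) ≤ 1 / 36 * (1 / 8) ^ ((2 * l + u) / 2) * L ^ p := by positivity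
    linarith
  · rcases Nat.even_or_odd' j with ⟨i, hi | hi⟩
    · subst hi
      have e1 : j' = 2 * (p - 1 - i) := by omega
      rw [e1]
      have h3 := h.term_even (i := i) (by omega) (by omega)
      have e2 : 2 * i / 2 = i := by omega
      rw [e2]
      have h4 : (0 : ℝ) ≤ 1 / 36 * (1 / 8) ^ l * L ^ p := by positivity
      linarith
    · have h3 := T_le h.hA h.hv0 h.hs h.hv j j' p (by omega)
      rw [Mom_odd A ⟨i, hi⟩] at h3
      have h4 := h.err2 hj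
      simp only [Matrix.mul_zero, Matrix.zero_mul, Matrix.trace_zero, Finset.sum_const_zero,
        zero_add] at h3
      have h5 : (0 : ℝ) ≤ 1 / 36 * ((1 / 8) ^ (j / 2) + (1 / 8) ^ l) * L ^ p := by positivity
      linarith

theorem Crit.term' {A : ι → Matrix d d ℝ} {s v L : ℝ} {p l : ℕ} (h : Crit A s v L p l)
    {j j' : ℕ} (hj : j + j' = 2 * p - 2) :
    E (TP A 1 j j') ≤ 1 / 36 * ((1 / 8) ^ (j / 2) + (1 / 8) ^ (j' / 2) + (1 / 8) ^ l) * L ^ p +
      L ^ p / (200 * p) := by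
  have hL0 := h.hL0
  rcases le_total j j' with h1 | h1
  · have h2 := h.term hj h1
    have h3 : (0 : ℝ) ≤ 1 / 36 * (1 / 8) ^ (j' / 2) * L ^ p := by positivity
    linarith
  · rw [TP_symm]
    have h2 := h.term (j := j') (j' := j) (by omega) h1
    have h3 : (0 : ℝ) ≤ 1 / 36 * (1 / 8) ^ (j / 2) * L ^ p := by positivity
    linarith

theorem geom8 (N : ℕ) : ∑ i ∈ Finset.range N, (1 / 8 : ℝ) ^ i ≤ 8 / 7 := by
  have h : ∑ i ∈ Finset.range N, (1 / 8 : ℝ) ^ i = 8 / 7 - 8 / 7 * (1 / 8) ^ N := by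
    induction N with
    | zero => simp
    | succ n ih => rw [Finset.sum_range_succ, ih]; ring
  rw [h]
  have : (0 : ℝ) ≤ (1 / 8) ^ N := by positivity
  linarith

theorem Crit.false {A : ι → Matrix d d ℝ} {s v L : ℝ} {p l : ℕ} (h : Crit A s v L p l) :
    False := by
  have hL0 := h.hL0
  have hp := h.hp
  have hp0 : (0 : ℝ) < p := by exact_mod_cast hp
  obtain ⟨n, rfl⟩ : ∃ n, p = n + 1 := ⟨p - 1, by omega⟩
  have h1 : L ^ (n + 1) = ∑ j ∈ Finset.range (2 * n + 1), E (TP A 1 j (2 * n - j)) := by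
    rw [← h.hL]
    unfold ff
    rw [show 2 * (n + 1) = (2 * n + 1) + 1 by ring, E_trP_succ]
    rfl
  have h2 : ∑ j ∈ Finset.range (2 * n + 1), E (TP A 1 j (2 * n - j)) ≤
      ∑ j ∈ Finset.range (2 * n + 1), (1 / 36 * ((1 / 8) ^ (j / 2) +
        (1 / 8) ^ ((2 * n - j) / 2) + (1 / 8) ^ l) * L ^ (n + 1) +
        L ^ (n + 1) / (200 * ((n + 1 : ℕ) : ℝ))) := by
    refine Finset.sum_le_sum fun j hj => ?_
    have hj' := Finset.mem_range.1 hj
    exact h.term' (by omega)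
  have h3 : ∑ j ∈ Finset.range (2 * n + 1), (1 / 8 : ℝ) ^ (j / 2) ≤ 16 / 7 := by
    rw [sum_range_odd]
    have e1 : ∀ i, (2 * i) / 2 = i := fun i => by omega
    have e2 : ∀ i, (2 * i + 1) / 2 = i := fun i => by omega
    simp_rw [e1, e2]
    have := geom8 (n + 1)
    have := geom8 n
    linarith
  have h4 : ∑ j ∈ Finset.range (2 * n + 1), (1 / 8 : ℝ) ^ ((2 * n - j) / 2) ≤ 16 / 7 := by
    have := Finset.sum_range_reflect (fun j => (1 / 8 : ℝ) ^ (j / 2)) (2 * n + 1)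
    refine le_trans (le_of_eq ?_) h3
    rw [← this]
    refine Finset.sum_congr rfl fun j hj => ?_
    congr 2
  have h5 : ∑ j ∈ Finset.range (2 * n + 1), (1 / 8 : ℝ) ^ l ≤ 2 := by
    rw [Finset.sum_const, Finset.card_range, nsmul_eq_mul]
    have h6 : ((2 * n + 1 : ℕ) : ℝ) ≤ 2 * 2 ^ l := by
      have := h.hpl
      have h7 : 2 * n + 1 ≤ 2 * 2 ^ l := by omega
      exact_mod_cast h7
    calc ((2 * n + 1 : ℕ) : ℝ) * (1 / 8) ^ l ≤ 2 * 2 ^ l * (1 / 8) ^ l :=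
          mul_le_mul_of_nonneg_right h6 (by positivity)
      _ = 2 * (1 / 4) ^ l := by rw [mul_assoc, ← mul_pow]; norm_num
      _ ≤ 2 * 1 := by
          refine mul_le_mul_of_nonneg_left (pow_le_one₀ (by norm_num) (by norm_num)) (by norm_num)
      _ = 2 := by norm_num
  have h6 : ∑ j ∈ Finset.range (2 * n + 1), (1 / 36 * ((1 / 8) ^ (j / 2) +
        (1 / 8) ^ ((2 * n - j) / 2) + (1 / 8) ^ l) * L ^ (n + 1) +
        L ^ (n + 1) / (200 * ((n + 1 : ℕ) : ℝ))) =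
      1 / 36 * (∑ j ∈ Finset.range (2 * n + 1), (1 / 8 : ℝ) ^ (j / 2) +
        ∑ j ∈ Finset.range (2 * n + 1), (1 / 8 : ℝ) ^ ((2 * n - j) / 2) +
        ∑ j ∈ Finset.range (2 * n + 1), (1 / 8 : ℝ) ^ l) * L ^ (n + 1) +
      ((2 * n + 1 : ℕ) : ℝ) * (L ^ (n + 1) / (200 * ((n + 1 : ℕ) : ℝ))) := by
    rw [Finset.sum_add_distrib, ← Finset.sum_mul, ← Finset.mul_sum, Finset.sum_add_distrib,
      Finset.sum_add_distrib, Finset.sum_const, Finset.card_range, nsmul_eq_mul,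
      Finset.sum_const, nsmul_eq_mul, Finset.card_range]
  have h7 : ((2 * n + 1 : ℕ) : ℝ) * (L ^ (n + 1) / (200 * ((n + 1 : ℕ) : ℝ))) ≤
      1 / 100 * L ^ (n + 1) := by
    have h8 : ((2 * n + 1 : ℕ) : ℝ) ≤ 2 * ((n + 1 : ℕ) : ℝ) := by push_cast; linarith
    rw [mul_div_assoc', div_le_iff₀ (by positivity)]
    have h9 := mul_le_mul_of_nonneg_right h8 (by positivity : 0 ≤ L ^ (n + 1))
    calc _ ≤ _ := h9
      _ = _ := by ring
  have hLp : 0 < L ^ (n + 1) := by positivity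
  have h8 : 1 / 36 * (∑ j ∈ Finset.range (2 * n + 1), (1 / 8 : ℝ) ^ (j / 2) +
        ∑ j ∈ Finset.range (2 * n + 1), (1 / 8 : ℝ) ^ ((2 * n - j) / 2) +
        ∑ j ∈ Finset.range (2 * n + 1), (1 / 8 : ℝ) ^ l) * L ^ (n + 1) ≤
      1 / 36 * (16 / 7 + 16 / 7 + 2) * L ^ (n + 1) :=
    mul_le_mul_of_nonneg_right (by linarith) hLp.le
  rw [h6] at h2
  rw [← h1] at h2
  have h9 : L ^ (n + 1) ≤ 1 / 36 * (16 / 7 + 16 / 7 + 2) * L ^ (n + 1) +
      1 / 100 * L ^ (n + 1) := by linarith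
  nlinarith

/-- **Moments of Gaussian matrix series without logarithmic factor.** -/
theorem gauss_trace_pow (A : ι → Matrix d d ℝ) (hA : ∀ i, (A i).IsSymm) {s2 v2 : ℝ}
    (hs0 : 0 ≤ s2) (hv0 : 0 ≤ v2)
    (hs : ∀ x : d → ℝ, ∑ i, ((A i) *ᵥ x) ⬝ᵥ ((A i) *ᵥ x) ≤ s2 * (x ⬝ᵥ x))
    (hv : ∀ c : ι → ℝ, ∑ a, ∑ b, (∑ i, c i * A i a b) ^ 2 ≤ v2 * ∑ i, c i ^ 2)
    (p l : ℕ) (hd : (Fintype.card d : ℝ) ≤ Real.exp p) (hp : p ≤ 2 ^ l)
    (hvs : v2 * ((p : ℝ) + l + 1) ^ 4 * 200 ^ (l + 2) ≤ s2) :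
    ∫ g : ι → ℝ, ((∑ i, g i • A i) ^ (2 * p)).trace
      ∂(MeasureTheory.Measure.pi fun _ => ProbabilityTheory.gaussianReal 0 1) ≤
      (200 * s2) ^ p := by
  have h1 : ∫ g : ι → ℝ, ((∑ i, g i • A i) ^ (2 * p)).trace
      ∂(MeasureTheory.Measure.pi fun _ => ProbabilityTheory.gaussianReal 0 1) = ff A p := by
    unfold ff
    rw [E_apply]
    simp_rw [eval_tr1]
    rfl
  rw [h1]
  by_contra hcon
  rw [not_le] at hcon
  have hp1 : 1 ≤ p := by
    by_contra h0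
    have h0' : p = 0 := by omega
    subst h0'
    rw [ff_zero, pow_zero] at hcon
    simp only [Nat.cast_zero, Real.exp_zero] at hd
    linarith
  have hff0 : 0 < ff A p := lt_of_le_of_lt (by positivity) hcon
  set L := (ff A p) ^ ((p : ℝ)⁻¹) with hL
  have hLp : L ^ p = ff A p := by
    rw [hL, ← Real.rpow_natCast, ← Real.rpow_mul hff0.le, inv_mul_cancel₀, Real.rpow_one]
    have : (0 : ℝ) < p := by exact_mod_cast hp1
    exact this.ne'
  have hL0 : 0 < L := Real.rpow_pos_of_pos hff0 _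
  have hLs : 200 * s2 < L := by
    rw [← hLp] at hcon
    exact lt_of_pow_lt_pow_left₀ p hL0.le hcon
  exact Crit.false (A := A) (s := s2) (v := v2) (L := L) (p := p) (l := l)
    { hA := hA, hs0 := hs0, hv0 := hv0, hs := hs, hv := hv, hp := hp1, hL0 := hL0,
      hLs := hLs.le, hL := hLp.symm, hd := hd, hpl := hp, hvs := hvs }

end Pool.Agent.Lib.H31.MC
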