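import Mathlib

/-!
# Linear algebra for real symmetric matrices: crossing inequalities
-/

set_option autoImplicit false

open Matrix

namespace Pool.Agent.Lib.H31.MC

variable {d : Type} [Fintype d] [DecidableEq d]

/-- Spectral decomposition. -/
theorem exists_diag (X : Matrix d d ℝ) (hX : X.IsSymm) :
    ∃ (U : Matrix d d ℝ) (x : d → ℝ), Uᵀ * U = 1 ∧ U * Uᵀ = 1 ∧ X = U * diagonal x * Uᵀ := by
  have hH : X.IsHermitian := by
    unfold Matrix.IsHermitian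
    rw [conjTranspose_eq_transpose_of_trivial]
    exact hX
  have hU : (hH.eigenvectorUnitary : Matrix d d ℝ)ᵀ * (hH.eigenvectorUnitary : Matrix d d ℝ)
      = 1 := by
    have h := Unitary.coe_star_mul_self hH.eigenvectorUnitary
    rwa [star_eq_conjTranspose, conjTranspose_eq_transpose_of_trivial] at h
  refine ⟨(hH.eigenvectorUnitary : Matrix d d ℝ), hH.eigenvalues, hU, ?_, ?_⟩
  · exact mul_eq_one_comm.1 hU
  · have h := hH.spectral_theorem
    rw [Unitary.conjStarAlgAut_apply, star_eq_conjTranspose,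
      conjTranspose_eq_transpose_of_trivial] at h
    exact h

theorem diag_pow {U : Matrix d d ℝ} {x : d → ℝ} (hU : Uᵀ * U = 1) (hU' : U * Uᵀ = 1) (n : ℕ) :
    (U * diagonal x * Uᵀ) ^ n = U * diagonal (fun a => x a ^ n) * Uᵀ := by
  induction n with
  | zero => simp [hU']
  | succ n ih =>
    rw [pow_succ, ih]
    have : U * diagonal (fun a => x a ^ n) * Uᵀ * (U * diagonal x * Uᵀ) =
        U * (diagonal (fun a => x a ^ n) * (Uᵀ * U) * diagonal x) * Uᵀ := by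
      simp only [Matrix.mul_assoc]
    rw [this, hU, Matrix.mul_one, diagonal_mul_diagonal]
    simp [pow_succ]

theorem dot_orth {U : Matrix d d ℝ} (hU : Uᵀ * U = 1) (y : d → ℝ) :
    (U *ᵥ y) ⬝ᵥ (U *ᵥ y) = y ⬝ᵥ y := by
  rw [dotProduct_mulVec, vecMul_mulVec, hU, vecMul_one]

theorem trace_diag_pow {U : Matrix d d ℝ} {x : d → ℝ} (hU : Uᵀ * U = 1) (hU' : U * Uᵀ = 1)
    (n : ℕ) : ((U * diagonal x * Uᵀ) ^ n).trace = ∑ a, x a ^ n := by
  rw [diag_pow hU hU', Matrix.trace_mul_comm, ← Matrix.mul_assoc, hU, Matrix.one_mul,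
    trace_diagonal]

/-- squared norm of a vector -/
theorem dot_self_nonneg (y : d → ℝ) : 0 ≤ y ⬝ᵥ y :=
  Finset.sum_nonneg fun _ _ => mul_self_nonneg _

theorem dot_self_diag {U : Matrix d d ℝ} {x : d → ℝ} (hU : Uᵀ * U = 1) (y : d → ℝ) :
    ((U * diagonal x * Uᵀ) *ᵥ y) ⬝ᵥ ((U * diagonal x * Uᵀ) *ᵥ y) =
      ∑ a, x a ^ 2 * (Uᵀ *ᵥ y) a ^ 2 := by
  rw [← mulVec_mulVec, ← mulVec_mulVec, dot_orth hU]
  simp only [dotProduct, mulVec_diagonal]
  refine Finset.sum_congr rfl fun a _ => ?_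
  ring

/-- For symmetric `X` the number `r = ‖X‖²`. -/
theorem exists_normsq (X : Matrix d d ℝ) (hX : X.IsSymm) :
    ∃ r : ℝ, 0 ≤ r ∧ (∀ y : d → ℝ, (X *ᵥ y) ⬝ᵥ (X *ᵥ y) ≤ r * (y ⬝ᵥ y)) ∧
      ∀ p : ℕ, 1 ≤ p → r ^ p ≤ (X ^ (2 * p)).trace := by
  obtain ⟨U, x, hU, hU', rfl⟩ := exists_diag X hX
  rcases isEmpty_or_nonempty d with hd | hd
  · refine ⟨0, le_rfl, fun y => ?_, fun p hp => ?_⟩
    · simp
    · rw [zero_pow (by omega)]
      simp [Matrix.trace]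
  · obtain ⟨a₀, ha₀⟩ := Finite.exists_max (fun a => x a ^ 2)
    refine ⟨x a₀ ^ 2, sq_nonneg _, fun y => ?_, fun p hp => ?_⟩
    · rw [dot_self_diag hU]
      have h1 : y ⬝ᵥ y = ∑ a, (Uᵀ *ᵥ y) a ^ 2 := by
        have h2 := dot_orth (U := Uᵀ) (by rwa [transpose_transpose]) y
        rw [← h2]
        simp only [dotProduct, sq]
      rw [h1, Finset.mul_sum]
      exact Finset.sum_le_sum fun a _ => mul_le_mul_of_nonneg_right (ha₀ a) (sq_nonneg _)
    · rw [trace_diag_pow hU hU', ← pow_mul]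
      exact Finset.single_le_sum (f := fun a => x a ^ (2 * p))
        (fun a _ => by rw [pow_mul]; positivity) (Finset.mem_univ a₀)

theorem pow_mulVec_le {X : Matrix d d ℝ} {r : ℝ} (hr : 0 ≤ r)
    (h : ∀ y : d → ℝ, (X *ᵥ y) ⬝ᵥ (X *ᵥ y) ≤ r * (y ⬝ᵥ y)) (n : ℕ) (y : d → ℝ) :
    ((X ^ n) *ᵥ y) ⬝ᵥ ((X ^ n) *ᵥ y) ≤ r ^ n * (y ⬝ᵥ y) := by
  induction n with
  | zero => simp
  | succ n ih =>
    rw [pow_succ', ← mulVec_mulVec]
    calc _ ≤ r * ((X ^ n *ᵥ y) ⬝ᵥ (X ^ n *ᵥ y)) := h _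
      _ ≤ r * (r ^ n * (y ⬝ᵥ y)) := mul_le_mul_of_nonneg_left ih hr
      _ = _ := by ring

/-- Cauchy-Schwarz for the dot product. -/
theorem dot_sq_le (y z : d → ℝ) : (y ⬝ᵥ z) ^ 2 ≤ (y ⬝ᵥ y) * (z ⬝ᵥ z) := by
  have := Finset.sum_mul_sq_le_sq_mul_sq Finset.univ y z
  simpa [dotProduct, sq] using this

/-- Norm of a positive semidefinite symmetric matrix from its quadratic form. -/
theorem psd_norm {M : Matrix d d ℝ} (hM : M.IsSymm) {g : ℝ} (h0 : ∀ y : d → ℝ, 0 ≤ y ⬝ᵥ (M *ᵥ y))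
    (h1 : ∀ y : d → ℝ, y ⬝ᵥ (M *ᵥ y) ≤ g * (y ⬝ᵥ y)) (y : d → ℝ) :
    (M *ᵥ y) ⬝ᵥ (M *ᵥ y) ≤ g ^ 2 * (y ⬝ᵥ y) := by
  obtain ⟨U, x, hU, hU', rfl⟩ := exists_diag M hM
  have hx : ∀ a, 0 ≤ x a ∧ x a ≤ g := by
    intro a
    have h3 : (U *ᵥ (Pi.single a 1)) ⬝ᵥ ((U * diagonal x * Uᵀ) *ᵥ (U *ᵥ (Pi.single a 1))) =
        x a := by
      rw [dotProduct_mulVec, dotProduct_mulVec, ← vecMul_transpose, vecMul_vecMul, vecMul_vecMul]
      have : Uᵀ * (U * diagonal x * Uᵀ * U) = diagonal x := by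
        calc Uᵀ * (U * diagonal x * Uᵀ * U) = (Uᵀ * U) * diagonal x * (Uᵀ * U) := by
              simp only [Matrix.mul_assoc]
          _ = _ := by rw [hU]; simp
      rw [this]
      simp [dotProduct_single]
    have h4 : (U *ᵥ (Pi.single a 1)) ⬝ᵥ (U *ᵥ (Pi.single a 1)) = (1 : ℝ) := by
      rw [dot_orth hU]
      simp
    have h5 := h0 (U *ᵥ (Pi.single a 1))
    have h6 := h1 (U *ᵥ (Pi.single a 1))
    rw [h3] at h5 h6
    rw [h4, mul_one] at h6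
    exact ⟨h5, h6⟩
  rw [dot_self_diag hU]
  have h1 : y ⬝ᵥ y = ∑ a, (Uᵀ *ᵥ y) a ^ 2 := by
    have h2 := dot_orth (U := Uᵀ) (by rwa [transpose_transpose]) y
    rw [← h2]
    simp only [dotProduct, sq]
  rw [h1, Finset.mul_sum]
  refine Finset.sum_le_sum fun a _ => mul_le_mul_of_nonneg_right ?_ (sq_nonneg _)
  exact pow_le_pow_left₀ (hx a).1 (hx a).2 2

theorem trace_mul_diag (M N : Matrix d d ℝ) (a b : d → ℝ) :
    (M * diagonal a * N * diagonal b).trace = ∑ β, ∑ α, M β α * a α * N α β * b β := by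
  simp only [Matrix.trace, diag_apply, mul_diagonal]
  refine Finset.sum_congr rfl fun β _ => ?_
  rw [Matrix.mul_apply, Finset.sum_mul]
  refine Finset.sum_congr rfl fun α _ => ?_
  rw [mul_diagonal]

theorem pow_mono_aux (x y : ℝ) (u w : ℕ) (h : Even (u + w)) :
    x ^ u * y ^ w + x ^ w * y ^ u ≤ x ^ (u + w) + y ^ (u + w) := by
  have h1 : |x| ^ u * |y| ^ w + |x| ^ w * |y| ^ u ≤ |x| ^ (u + w) + |y| ^ (u + w) := by
    have h2 : 0 ≤ (|x| ^ u - |y| ^ u) * (|x| ^ w - |y| ^ w) := by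
      rcases le_total |x| |y| with h3 | h3
      · have e1 := pow_le_pow_left₀ (abs_nonneg x) h3 u
        have e2 := pow_le_pow_left₀ (abs_nonneg x) h3 w
        nlinarith
      · have e1 := pow_le_pow_left₀ (abs_nonneg y) h3 u
        have e2 := pow_le_pow_left₀ (abs_nonneg y) h3 w
        nlinarith
    rw [pow_add, pow_add]
    nlinarith
  have h3 : |x| ^ (u + w) = x ^ (u + w) := h.pow_abs x
  have h4 : |y| ^ (u + w) = y ^ (u + w) := h.pow_abs y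
  have h5 : x ^ u * y ^ w ≤ |x| ^ u * |y| ^ w := by
    rw [← abs_pow, ← abs_pow, ← abs_mul]
    exact le_abs_self _
  have h6 : x ^ w * y ^ u ≤ |x| ^ w * |y| ^ u := by
    rw [← abs_pow, ← abs_pow, ← abs_mul]
    exact le_abs_self _
  rw [← h3, ← h4]
  linarith

/-- Monotonicity of `tr A X^j A X^(m-j)` away from the ends. -/
theorem trace_mono (A X : Matrix d d ℝ) (hA : A.IsSymm) (hX : X.IsSymm) (l u w : ℕ)
    (h : Even (u + w)) :
    (A * X ^ (2 * l + u) * A * X ^ (2 * l + w)).trace ≤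
      (A * X ^ (2 * l) * A * X ^ (2 * l + (u + w))).trace := by
  obtain ⟨U, x, hU, hU', rfl⟩ := exists_diag X hX
  set M := Uᵀ * A * U with hM
  have hMs : Mᵀ = M := by
    rw [hM, transpose_mul, transpose_mul, transpose_transpose, hA.eq, Matrix.mul_assoc]
  have hform : ∀ j n : ℕ, (A * (U * diagonal x * Uᵀ) ^ j * A * (U * diagonal x * Uᵀ) ^ n).trace =
      ∑ β, ∑ α, M α β ^ 2 * (x α ^ j * x β ^ n) := by
    intro j n
    rw [diag_pow hU hU', diag_pow hU hU']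
    have h1 : A * (U * diagonal (fun a => x a ^ j) * Uᵀ) * A *
        (U * diagonal (fun a => x a ^ n) * Uᵀ) =
        (A * U * diagonal (fun a => x a ^ j) * Uᵀ * A * U * diagonal (fun a => x a ^ n)) * Uᵀ := by
      simp only [Matrix.mul_assoc]
    rw [h1, Matrix.trace_mul_comm]
    have h2 : Uᵀ * (A * U * diagonal (fun a => x a ^ j) * Uᵀ * A * U *
        diagonal (fun a => x a ^ n)) =
        M * diagonal (fun a => x a ^ j) * M * diagonal (fun a => x a ^ n) := by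
      simp only [hM, Matrix.mul_assoc]
    rw [h2, trace_mul_diag]
    refine Finset.sum_congr rfl fun β _ => Finset.sum_congr rfl fun α _ => ?_
    have h3 : M β α = M α β := by
      conv_lhs => rw [← hMs]
      rfl
    rw [h3]
    ring
  have hsymm : ∀ j n : ℕ, ∑ β, ∑ α, M α β ^ 2 * (x α ^ j * x β ^ n) =
      ∑ β, ∑ α, M α β ^ 2 * (x α ^ n * x β ^ j) := by
    intro j n
    rw [Finset.sum_comm]
    refine Finset.sum_congr rfl fun β _ => Finset.sum_congr rfl fun α _ => ?_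
    have h3 : M β α = M α β := by
      conv_lhs => rw [← hMs]
      rfl
    rw [h3]
    ring
  have e1 : 2 * (A * (U * diagonal x * Uᵀ) ^ (2 * l + u) * A *
      (U * diagonal x * Uᵀ) ^ (2 * l + w)).trace =
      ∑ β, ∑ α, M α β ^ 2 * (x α ^ (2 * l + u) * x β ^ (2 * l + w) +
        x α ^ (2 * l + w) * x β ^ (2 * l + u)) := by
    rw [hform, two_mul]
    conv_lhs => rw [hsymm (2 * l + u) (2 * l + w)]
    conv_lhs => 
      lhs
      rw [hsymm (2 * l + w) (2 * l + u)]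
    rw [← Finset.sum_add_distrib]
    refine Finset.sum_congr rfl fun β _ => ?_
    rw [← Finset.sum_add_distrib]
    refine Finset.sum_congr rfl fun α _ => ?_
    ring
  have e2 : 2 * (A * (U * diagonal x * Uᵀ) ^ (2 * l) * A *
      (U * diagonal x * Uᵀ) ^ (2 * l + (u + w))).trace =
      ∑ β, ∑ α, M α β ^ 2 * (x α ^ (2 * l) * x β ^ (2 * l + (u + w)) +
        x α ^ (2 * l + (u + w)) * x β ^ (2 * l)) := by
    have h7 : ∀ β α, M α β ^ 2 * (x α ^ (2 * l) * x β ^ (2 * l + (u + w)) +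
        x α ^ (2 * l + (u + w)) * x β ^ (2 * l)) =
        M α β ^ 2 * (x α ^ (2 * l) * x β ^ (2 * l + (u + w))) +
        M α β ^ 2 * (x α ^ (2 * l + (u + w)) * x β ^ (2 * l)) := fun β α => mul_add _ _ _
    simp_rw [h7, Finset.sum_add_distrib]
    rw [← hsymm (2 * l) (2 * l + (u + w)), ← hform]
    ring
  have e3 : ∀ α β, x α ^ (2 * l + u) * x β ^ (2 * l + w) +
        x α ^ (2 * l + w) * x β ^ (2 * l + u) ≤ x α ^ (2 * l) * x β ^ (2 * l + (u + w)) +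
        x α ^ (2 * l + (u + w)) * x β ^ (2 * l) := by
    intro α β
    have h8 := pow_mono_aux (x α) (x β) u w h
    have h9 : 0 ≤ x α ^ (2 * l) * x β ^ (2 * l) := by
      rw [pow_mul, pow_mul]; positivity
    have h10 := mul_le_mul_of_nonneg_left h8 h9
    calc _ = x α ^ (2 * l) * x β ^ (2 * l) * (x α ^ u * x β ^ w + x α ^ w * x β ^ u) := by ring
      _ ≤ _ := h10
      _ = _ := by ring
  have e4 : 2 * (A * (U * diagonal x * Uᵀ) ^ (2 * l + u) * A *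
      (U * diagonal x * Uᵀ) ^ (2 * l + w)).trace ≤ 2 * (A * (U * diagonal x * Uᵀ) ^ (2 * l) * A *
      (U * diagonal x * Uᵀ) ^ (2 * l + (u + w))).trace := by
    rw [e1, e2]
    exact Finset.sum_le_sum fun β _ => Finset.sum_le_sum fun α _ =>
      mul_le_mul_of_nonneg_left (e3 α β) (sq_nonneg _)
  linarith

/-! ### crossing inequalities -/

variable {ι : Type} [Fintype ι]

/-- Families of matrices with bounds for rows, columns and linear combinations. -/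
structure Good (L : ι → Matrix d d ℝ) (s v : ℝ) : Prop where
  row : ∀ a, ∑ b, ∑ k, L k a b ^ 2 ≤ s
  col : ∀ b, ∑ a, ∑ k, L k a b ^ 2 ≤ s
  frob : ∀ c : ι → ℝ, ∑ a, ∑ b, (∑ k, c k * L k a b) ^ 2 ≤ v * ∑ k, c k ^ 2

theorem frob_eq (N : Matrix d d ℝ) : ∑ a, ∑ b, N a b ^ 2 = (N * Nᵀ).trace := by
  simp only [Matrix.trace, diag_apply, Matrix.mul_apply, transpose_apply, sq]

theorem good_conj {A : ι → Matrix d d ℝ} (hA : ∀ i, (A i).IsSymm) {s v : ℝ}
    (hs : ∀ x : d → ℝ, ∑ i, ((A i) *ᵥ x) ⬝ᵥ ((A i) *ᵥ x) ≤ s * (x ⬝ᵥ x))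
    (hv : ∀ c : ι → ℝ, ∑ a, ∑ b, (∑ i, c i * A i a b) ^ 2 ≤ v * ∑ i, c i ^ 2)
    {U V : Matrix d d ℝ} (hU : Uᵀ * U = 1) (hU' : U * Uᵀ = 1) (hV : Vᵀ * V = 1)
    (hV' : V * Vᵀ = 1) : Good (fun k => Vᵀ * A k * U) s v := by
  have hcol : ∀ {U V : Matrix d d ℝ}, Uᵀ * U = 1 → V * Vᵀ = 1 → ∀ b,
      ∑ a, ∑ k, (Vᵀ * A k * U) a b ^ 2 ≤ s := by
    intro U V hU hV' b
    rw [Finset.sum_comm]
    have h1 : ∀ k, ∑ a, (Vᵀ * A k * U) a b ^ 2 =
        (A k *ᵥ (U *ᵥ Pi.single b 1)) ⬝ᵥ (A k *ᵥ (U *ᵥ Pi.single b 1)) := by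
      intro k
      have h2 : (Vᵀ *ᵥ (A k *ᵥ (U *ᵥ Pi.single b 1))) ⬝ᵥ (Vᵀ *ᵥ (A k *ᵥ (U *ᵥ Pi.single b 1))) =
          (A k *ᵥ (U *ᵥ Pi.single b 1)) ⬝ᵥ (A k *ᵥ (U *ᵥ Pi.single b 1)) :=
        dot_orth (by rwa [transpose_transpose]) _
      rw [← h2, mulVec_mulVec, mulVec_mulVec]
      simp [dotProduct, mulVec_single, sq]
    simp_rw [h1]
    refine (hs _).trans (le_of_eq ?_)
    rw [dot_orth hU]
    simp
  refine ⟨?_, hcol hU hV', ?_⟩
  · intro a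
    have h3 := hcol hV hU' a
    refine le_trans (le_of_eq ?_) h3
    refine Finset.sum_congr rfl fun b _ => Finset.sum_congr rfl fun k _ => ?_
    have h4 : (Vᵀ * A k * U) a b = (Uᵀ * A k * V) b a := by
      have : Uᵀ * A k * V = (Vᵀ * A k * U)ᵀ := by
        rw [transpose_mul, transpose_mul, transpose_transpose, (hA k).eq, Matrix.mul_assoc]
      rw [this]
      rfl
    rw [h4]
  · intro c
    have h1 : ∀ a b, ∑ k, c k * (Vᵀ * A k * U) a b = (Vᵀ * (∑ k, c k • A k) * U) a b := by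
      intro a b
      rw [Matrix.mul_sum, Matrix.sum_mul, Matrix.sum_apply]
      refine Finset.sum_congr rfl fun k _ => ?_
      rw [Matrix.mul_smul, Matrix.smul_mul, Matrix.smul_apply, smul_eq_mul]
    simp_rw [h1]
    rw [frob_eq]
    set N := ∑ k, c k • A k with hN
    have h2 : (Vᵀ * N * U * (Vᵀ * N * U)ᵀ).trace = (N * Nᵀ).trace := by
      have h3 : Vᵀ * N * U * (Vᵀ * N * U)ᵀ = Vᵀ * (N * (U * Uᵀ) * Nᵀ * V) := by
        rw [transpose_mul, transpose_mul, transpose_transpose]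
        simp only [Matrix.mul_assoc]
      rw [h3, Matrix.trace_mul_comm, hU', Matrix.mul_one, Matrix.mul_assoc, hV', Matrix.mul_one]
    rw [h2, ← frob_eq]
    refine le_trans (le_of_eq ?_) (hv c)
    refine Finset.sum_congr rfl fun a _ => Finset.sum_congr rfl fun b _ => ?_
    rw [hN, Matrix.sum_apply]
    simp

theorem Good.sq_col {L N : ι → Matrix d d ℝ} {s v : ℝ} (hv0 : 0 ≤ v) (hL : Good L s v)
    (hN : Good N s v) (b : d) :
    ∑ a, ∑ c, ∑ e, (∑ k, L k a b * N k c e) ^ 2 ≤ v * s := by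
  calc ∑ a, ∑ c, ∑ e, (∑ k, L k a b * N k c e) ^ 2 ≤ ∑ a, v * ∑ k, L k a b ^ 2 :=
        Finset.sum_le_sum fun a _ => hN.frob fun k => L k a b
    _ = v * ∑ a, ∑ k, L k a b ^ 2 := by rw [Finset.mul_sum]
    _ ≤ v * s := mul_le_mul_of_nonneg_left (hL.col b) hv0

theorem Good.sq_row {L N : ι → Matrix d d ℝ} {s v : ℝ} (hv0 : 0 ≤ v) (hL : Good L s v)
    (hN : Good N s v) (a : d) :
    ∑ b, ∑ c, ∑ e, (∑ k, L k a b * N k c e) ^ 2 ≤ v * s := by
  calc ∑ b, ∑ c, ∑ e, (∑ k, L k a b * N k c e) ^ 2 ≤ ∑ b, v * ∑ k, L k a b ^ 2 :=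
        Finset.sum_le_sum fun b _ => hN.frob fun k => L k a b
    _ = v * ∑ b, ∑ k, L k a b ^ 2 := by rw [Finset.mul_sum]
    _ ≤ v * s := mul_le_mul_of_nonneg_left (hL.row a) hv0

/-- Weighted four-index sum. -/
theorem four_sum {c : d → d → d → d → ℝ} {K : ℝ} (h1 : ∀ α, ∑ α', ∑ β, ∑ β', c α α' β β' ≤ K)
    (h2 : ∀ α', ∑ α, ∑ β, ∑ β', c α α' β β' ≤ K) (h3 : ∀ β, ∑ α, ∑ α', ∑ β', c α α' β β' ≤ K)
    (h4 : ∀ β', ∑ α, ∑ α', ∑ β, c α α' β β' ≤ K) {y z : d → ℝ} (hy : ∀ a, 0 ≤ y a)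
    (hz : ∀ a, 0 ≤ z a) :
    ∑ α, ∑ α', ∑ β, ∑ β', c α α' β β' * (y α + y α' + z β + z β') ≤
      K * (2 * ∑ a, y a + 2 * ∑ a, z a) := by
  have e1 : ∑ α, ∑ α', ∑ β, ∑ β', c α α' β β' * y α ≤ K * ∑ a, y a := by
    rw [Finset.mul_sum]
    refine Finset.sum_le_sum fun α _ => ?_
    simp_rw [← Finset.sum_mul]
    exact mul_le_mul_of_nonneg_right (h1 α) (hy α)
  have e2 : ∑ α, ∑ α', ∑ β, ∑ β', c α α' β β' * y α' ≤ K * ∑ a, y a := by
    rw [Finset.sum_comm, Finset.mul_sum]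
    refine Finset.sum_le_sum fun α' _ => ?_
    simp_rw [← Finset.sum_mul]
    exact mul_le_mul_of_nonneg_right (h2 α') (hy α')
  have e3 : ∑ α, ∑ α', ∑ β, ∑ β', c α α' β β' * z β ≤ K * ∑ a, z a := by
    have : ∑ α, ∑ α', ∑ β, ∑ β', c α α' β β' * z β =
        ∑ β, ∑ α, ∑ α', ∑ β', c α α' β β' * z β := by
      calc ∑ α, ∑ α', ∑ β, ∑ β', c α α' β β' * z β
          = ∑ α, ∑ β, ∑ α', ∑ β', c α α' β β' * z β := by
            refine Finset.sum_congr rfl fun α _ => ?_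
            rw [Finset.sum_comm]
        _ = _ := by rw [Finset.sum_comm]
    rw [this, Finset.mul_sum]
    refine Finset.sum_le_sum fun β _ => ?_
    simp_rw [← Finset.sum_mul]
    exact mul_le_mul_of_nonneg_right (h3 β) (hz β)
  have e4 : ∑ α, ∑ α', ∑ β, ∑ β', c α α' β β' * z β' ≤ K * ∑ a, z a := by
    have : ∑ α, ∑ α', ∑ β, ∑ β', c α α' β β' * z β' =
        ∑ β', ∑ α, ∑ α', ∑ β, c α α' β β' * z β' := by
      calc ∑ α, ∑ α', ∑ β, ∑ β', c α α' β β' * z β'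
          = ∑ α, ∑ α', ∑ β', ∑ β, c α α' β β' * z β' := by
            refine Finset.sum_congr rfl fun α _ => Finset.sum_congr rfl fun α' _ => ?_
            rw [Finset.sum_comm]
        _ = ∑ α, ∑ β', ∑ α', ∑ β, c α α' β β' * z β' := by
            refine Finset.sum_congr rfl fun α _ => ?_
            rw [Finset.sum_comm]
        _ = _ := by rw [Finset.sum_comm]
    rw [this, Finset.mul_sum]
    refine Finset.sum_le_sum fun β' _ => ?_
    simp_rw [← Finset.sum_mul]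
    exact mul_le_mul_of_nonneg_right (h4 β') (hz β')
  have e5 : ∑ α, ∑ α', ∑ β, ∑ β', c α α' β β' * (y α + y α' + z β + z β') =
      ∑ α, ∑ α', ∑ β, ∑ β', c α α' β β' * y α + ∑ α, ∑ α', ∑ β, ∑ β', c α α' β β' * y α' +
      ∑ α, ∑ α', ∑ β, ∑ β', c α α' β β' * z β + ∑ α, ∑ α', ∑ β, ∑ β', c α α' β β' * z β' := by
    simp only [mul_add, Finset.sum_add_distrib]
  rw [e5]
  linarith

theorem pow4_le {p q r t : ℝ} (hp : 0 ≤ p) (hq : 0 ≤ q) (hr : 0 ≤ r) (ht : 0 ≤ t)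
    (a b c e : ℕ) : p ^ a * q ^ b * r ^ c * t ^ e ≤
      p ^ (a + b + c + e) + q ^ (a + b + c + e) + r ^ (a + b + c + e) + t ^ (a + b + c + e) := by
  set m := max (max p q) (max r t) with hm
  have h1 : p ≤ m := (le_max_left _ _).trans (le_max_left _ _)
  have h2 : q ≤ m := (le_max_right _ _).trans (le_max_left _ _)
  have h3 : r ≤ m := (le_max_left _ _).trans (le_max_right _ _)
  have h4 : t ≤ m := (le_max_right _ _).trans (le_max_right _ _)
  have hm0 : 0 ≤ m := hp.trans h1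
  have h5 : p ^ a * q ^ b * r ^ c * t ^ e ≤ m ^ (a + b + c + e) := by
    calc p ^ a * q ^ b * r ^ c * t ^ e ≤ m ^ a * m ^ b * m ^ c * m ^ e := by gcongr
      _ = _ := by ring
  have h6 : m ^ (a + b + c + e) ≤
      p ^ (a + b + c + e) + q ^ (a + b + c + e) + r ^ (a + b + c + e) + t ^ (a + b + c + e) := by
    have e1 : 0 ≤ p ^ (a + b + c + e) := by positivity
    have e2 : 0 ≤ q ^ (a + b + c + e) := by positivity
    have e3 : 0 ≤ r ^ (a + b + c + e) := by positivity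
    have e4 : 0 ≤ t ^ (a + b + c + e) := by positivity
    have e5 : m = p ∨ m = q ∨ m = r ∨ m = t := by
      rcases max_choice (max p q) (max r t) with h | h
      · rcases max_choice p q with h' | h'
        · left; rw [hm, h, h']
        · right; left; rw [hm, h, h']
      · rcases max_choice r t with h' | h'
        · right; right; left; rw [hm, h, h']
        · right; right; right; rw [hm, h, h']
    rcases e5 with h | h | h | h <;> rw [h] <;> linarith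
  exact h5.trans h6

omit [DecidableEq d] in
theorem sum3_132 (f : d → d → d → ℝ) : ∑ x, ∑ y, ∑ z, f x y z = ∑ x, ∑ z, ∑ y, f x y z :=
  Finset.sum_congr rfl fun _ _ => Finset.sum_comm

omit [DecidableEq d] in
theorem sum3_213 (f : d → d → d → ℝ) : ∑ x, ∑ y, ∑ z, f x y z = ∑ y, ∑ x, ∑ z, f x y z :=
  Finset.sum_comm

omit [DecidableEq d] in
theorem sum3_231 (f : d → d → d → ℝ) : ∑ x, ∑ y, ∑ z, f x y z = ∑ y, ∑ z, ∑ x, f x y z := by
  rw [sum3_213, sum3_132]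

omit [DecidableEq d] in
theorem sum3_312 (f : d → d → d → ℝ) : ∑ x, ∑ y, ∑ z, f x y z = ∑ z, ∑ x, ∑ y, f x y z := by
  rw [sum3_132, sum3_213]

omit [DecidableEq d] in
theorem sum3_321 (f : d → d → d → ℝ) : ∑ x, ∑ y, ∑ z, f x y z = ∑ z, ∑ y, ∑ x, f x y z := by
  rw [sum3_231, sum3_213]

theorem mul_diag_mul (N M : Matrix d d ℝ) (a : d → ℝ) (i j : d) :
    (N * diagonal a * M) i j = ∑ t, N i t * a t * M t j := by
  rw [Matrix.mul_apply]
  simp only [mul_diagonal]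

theorem trace_four (M1 M2 M3 M4 : Matrix d d ℝ) (a b c e : d → ℝ) :
    (M1 * diagonal a * M2 * diagonal b * M3 * diagonal c * M4 * diagonal e).trace =
      ∑ α, ∑ α', ∑ β, ∑ β', M1 β' α * M2 α α' * M3 α' β * M4 β β' *
        (a α * b α' * c β * e β') := by
  have h : (M1 * diagonal a * M2 * diagonal b * M3 * diagonal c * M4 * diagonal e).trace =
      ∑ β', ∑ β, ∑ α', ∑ α, M1 β' α * M2 α α' * M3 α' β * M4 β β' *
        (a α * b α' * c β * e β') := by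
    simp only [Matrix.trace, diag_apply]
    refine Finset.sum_congr rfl fun β' _ => ?_
    rw [mul_diagonal]
    simp only [mul_diag_mul, Finset.sum_mul]
    refine Finset.sum_congr rfl fun β _ =>
      Finset.sum_congr rfl fun α' _ => Finset.sum_congr rfl fun α _ => ?_
    ring
  rw [h]
  calc ∑ β', ∑ β, ∑ α', ∑ α, M1 β' α * M2 α α' * M3 α' β * M4 β β' * (a α * b α' * c β * e β')
      = ∑ β', ∑ β, ∑ α, ∑ α', M1 β' α * M2 α α' * M3 α' β * M4 β β' *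
          (a α * b α' * c β * e β') := by
        refine Finset.sum_congr rfl fun β' _ => Finset.sum_congr rfl fun β _ => ?_
        rw [Finset.sum_comm]
    _ = ∑ β', ∑ α, ∑ β, ∑ α', M1 β' α * M2 α α' * M3 α' β * M4 β β' *
          (a α * b α' * c β * e β') := by
        refine Finset.sum_congr rfl fun β' _ => ?_
        rw [Finset.sum_comm]
    _ = ∑ α, ∑ β', ∑ β, ∑ α', M1 β' α * M2 α α' * M3 α' β * M4 β β' *
          (a α * b α' * c β * e β') := by rw [Finset.sum_comm]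
    _ = ∑ α, ∑ β', ∑ α', ∑ β, M1 β' α * M2 α α' * M3 α' β * M4 β β' *
          (a α * b α' * c β * e β') := by
        refine Finset.sum_congr rfl fun α _ => Finset.sum_congr rfl fun β' _ => ?_
        rw [Finset.sum_comm]
    _ = ∑ α, ∑ α', ∑ β', ∑ β, M1 β' α * M2 α α' * M3 α' β * M4 β β' *
          (a α * b α' * c β * e β') := by
        refine Finset.sum_congr rfl fun α _ => ?_
        rw [Finset.sum_comm]
    _ = _ := by
        refine Finset.sum_congr rfl fun α _ => Finset.sum_congr rfl fun α' _ => ?_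
        rw [Finset.sum_comm]

/-- Crossing inequality for traces. -/
theorem cross_trace {A : ι → Matrix d d ℝ} (hA : ∀ i, (A i).IsSymm) {s v : ℝ} (hv0 : 0 ≤ v)
    (hs : ∀ x : d → ℝ, ∑ i, ((A i) *ᵥ x) ⬝ᵥ ((A i) *ᵥ x) ≤ s * (x ⬝ᵥ x))
    (hv : ∀ c : ι → ℝ, ∑ a, ∑ b, (∑ i, c i * A i a b) ^ 2 ≤ v * ∑ i, c i ^ 2)
    {X Z : Matrix d d ℝ} (hX : X.IsSymm) (hZ : Z.IsSymm) (a b c e : ℕ)
    (hM : Even (a + b + c + e)) :
    ∑ k, ∑ i, (A k * X ^ a * A i * X ^ b * A k * Z ^ c * A i * Z ^ e).trace ≤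
      v * s * (2 * (X ^ (a + b + c + e)).trace + 2 * (Z ^ (a + b + c + e)).trace) := by
  obtain ⟨U, x, hU, hU', rfl⟩ := exists_diag X hX
  obtain ⟨V, z, hV, hV', rfl⟩ := exists_diag Z hZ
  set P : ι → Matrix d d ℝ := fun k => Vᵀ * A k * U with hP
  set Q : ι → Matrix d d ℝ := fun k => Uᵀ * A k * U with hQ
  set S : ι → Matrix d d ℝ := fun k => Vᵀ * A k * V with hS
  have gP : Good P s v := good_conj hA hs hv hU hU' hV hV'
  have gQ : Good Q s v := good_conj hA hs hv hU hU' hU hU'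
  have gS : Good S s v := good_conj hA hs hv hV hV' hV hV'
  have hform : ∀ k i, (A k * (U * diagonal x * Uᵀ) ^ a * A i * (U * diagonal x * Uᵀ) ^ b * A k *
      (V * diagonal z * Vᵀ) ^ c * A i * (V * diagonal z * Vᵀ) ^ e).trace =
      ∑ α, ∑ α', ∑ β, ∑ β', P k β' α * Q i α α' * P k β α' * S i β β' *
        (x α ^ a * x α' ^ b * z β ^ c * z β' ^ e) := by
    intro k i
    rw [diag_pow hU hU', diag_pow hU hU', diag_pow hV hV', diag_pow hV hV']
    have h1 : A k * (U * diagonal (fun α => x α ^ a) * Uᵀ) * A i *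
        (U * diagonal (fun α => x α ^ b) * Uᵀ) * A k *
        (V * diagonal (fun α => z α ^ c) * Vᵀ) * A i * (V * diagonal (fun α => z α ^ e) * Vᵀ) =
        (A k * U * diagonal (fun α => x α ^ a) * Uᵀ * A i * U * diagonal (fun α => x α ^ b) *
          Uᵀ * A k * V * diagonal (fun α => z α ^ c) * Vᵀ * A i * V *
          diagonal (fun α => z α ^ e)) * Vᵀ := by
      simp only [Matrix.mul_assoc]
    rw [h1, Matrix.trace_mul_comm]
    have h2 : Vᵀ * (A k * U * diagonal (fun α => x α ^ a) * Uᵀ * A i * U *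
          diagonal (fun α => x α ^ b) *
          Uᵀ * A k * V * diagonal (fun α => z α ^ c) * Vᵀ * A i * V *
          diagonal (fun α => z α ^ e)) =
        P k * diagonal (fun α => x α ^ a) * Q i * diagonal (fun α => x α ^ b) * (P k)ᵀ *
          diagonal (fun α => z α ^ c) * S i * diagonal (fun α => z α ^ e) := by
      simp only [hP, hQ, hS, transpose_mul, transpose_transpose, (hA k).eq, Matrix.mul_assoc]
    rw [h2, trace_four]
    rfl
  have hsum : ∑ k, ∑ i, (A k * (U * diagonal x * Uᵀ) ^ a * A i * (U * diagonal x * Uᵀ) ^ b * A k *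
      (V * diagonal z * Vᵀ) ^ c * A i * (V * diagonal z * Vᵀ) ^ e).trace =
      ∑ α, ∑ α', ∑ β, ∑ β', (∑ k, P k β' α * P k β α') * (∑ i, Q i α α' * S i β β') *
        (x α ^ a * x α' ^ b * z β ^ c * z β' ^ e) := by
    simp_rw [hform, Finset.sum_mul_sum, Finset.sum_mul]
    simp only [Finset.sum_comm (s := (Finset.univ : Finset ι)) (t := (Finset.univ : Finset d))]
    refine Finset.sum_congr rfl fun α _ => Finset.sum_congr rfl fun α' _ =>
      Finset.sum_congr rfl fun β _ => Finset.sum_congr rfl fun β' _ =>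
      Finset.sum_congr rfl fun k _ => Finset.sum_congr rfl fun i _ => ?_
    ring
  rw [hsum]
  set R : d → d → d → d → ℝ := fun α α' β β' => ∑ k, P k β' α * P k β α' with hR
  set W : d → d → d → d → ℝ := fun α α' β β' => ∑ i, Q i α α' * S i β β' with hW
  set C : d → d → d → d → ℝ := fun α α' β β' => (R α α' β β' ^ 2 + W α α' β β' ^ 2) / 2 with hC
  have hC0 : ∀ α α' β β', 0 ≤ C α α' β β' := fun α α' β β' => by simp only [hC]; positivity
  have hRW : ∀ α α' β β', |R α α' β β' * W α α' β β'| ≤ C α α' β β' := by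
    intro α α' β β'
    simp only [hC]
    rw [abs_mul]
    nlinarith [sq_nonneg (|R α α' β β'| - |W α α' β β'|), sq_abs (R α α' β β'),
      sq_abs (W α α' β β')]
  set M := a + b + c + e with hMdef
  have hterm : ∀ α α' β β', R α α' β β' * W α α' β β' *
      (x α ^ a * x α' ^ b * z β ^ c * z β' ^ e) ≤
      C α α' β β' * (x α ^ M + x α' ^ M + z β ^ M + z β' ^ M) := by
    intro α α' β β'
    have h1 := pow4_le (abs_nonneg (x α)) (abs_nonneg (x α')) (abs_nonneg (z β))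
      (abs_nonneg (z β')) a b c e
    rw [← hMdef, hM.pow_abs, hM.pow_abs, hM.pow_abs, hM.pow_abs] at h1
    calc R α α' β β' * W α α' β β' * (x α ^ a * x α' ^ b * z β ^ c * z β' ^ e)
        ≤ |R α α' β β' * W α α' β β' * (x α ^ a * x α' ^ b * z β ^ c * z β' ^ e)| :=
          le_abs_self _
      _ = |R α α' β β' * W α α' β β'| * (|x α| ^ a * |x α'| ^ b * |z β| ^ c * |z β'| ^ e) := by
          simp only [abs_mul, abs_pow]
      _ ≤ _ := mul_le_mul (hRW α α' β β') h1 (by positivity) (hC0 α α' β β')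
  have hle : ∑ α, ∑ α', ∑ β, ∑ β', R α α' β β' * W α α' β β' *
        (x α ^ a * x α' ^ b * z β ^ c * z β' ^ e) ≤
      ∑ α, ∑ α', ∑ β, ∑ β', C α α' β β' * (x α ^ M + x α' ^ M + z β ^ M + z β' ^ M) :=
    Finset.sum_le_sum fun α _ => Finset.sum_le_sum fun α' _ => Finset.sum_le_sum fun β _ =>
      Finset.sum_le_sum fun β' _ => hterm α α' β β'
  refine hle.trans ?_
  rw [trace_diag_pow hU hU', trace_diag_pow hV hV']
  have hx0 : ∀ y : d → ℝ, ∀ a, 0 ≤ y a ^ M := fun y a => hM.pow_nonneg _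
  have hsplit : ∀ (R' W' : d → d → d → ℝ), (∑ x, ∑ y, ∑ z, R' x y z ^ 2 ≤ v * s) →
      (∑ x, ∑ y, ∑ z, W' x y z ^ 2 ≤ v * s) →
      ∑ x, ∑ y, ∑ z, (R' x y z ^ 2 + W' x y z ^ 2) / 2 ≤ v * s := by
    intro R' W' h1 h2
    have : ∑ x, ∑ y, ∑ z, (R' x y z ^ 2 + W' x y z ^ 2) / 2 =
        (∑ x, ∑ y, ∑ z, R' x y z ^ 2 + ∑ x, ∑ y, ∑ z, W' x y z ^ 2) / 2 := by
      simp only [← Finset.sum_add_distrib, Finset.sum_div]
    rw [this]
    linarith
  refine four_sum ?_ ?_ ?_ ?_ (hx0 x) (hx0 z)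
  · intro α
    refine hsplit (fun α' β β' => R α α' β β') (fun α' β β' => W α α' β β') ?_ ?_
    · rw [sum3_321]
      exact gP.sq_col hv0 gP α
    · exact gQ.sq_row hv0 gS α
  · intro α'
    refine hsplit (fun α β β' => R α α' β β') (fun α β β' => W α α' β β') ?_ ?_
    · rw [sum3_231]
      refine le_trans (le_of_eq ?_) (gP.sq_col hv0 gP α')
      refine Finset.sum_congr rfl fun β _ => Finset.sum_congr rfl fun β' _ =>
        Finset.sum_congr rfl fun α _ => ?_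
      simp only [hR, mul_comm]
    · exact gQ.sq_col hv0 gS α'
  · intro β
    refine hsplit (fun α α' β' => R α α' β β') (fun α α' β' => W α α' β β') ?_ ?_
    · rw [sum3_231]
      refine le_trans (le_of_eq ?_) (gP.sq_row hv0 gP β)
      refine Finset.sum_congr rfl fun α' _ => Finset.sum_congr rfl fun β' _ =>
        Finset.sum_congr rfl fun α _ => ?_
      simp only [hR, mul_comm]
    · rw [sum3_312]
      refine le_trans (le_of_eq ?_) (gS.sq_row hv0 gQ β)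
      refine Finset.sum_congr rfl fun β' _ => Finset.sum_congr rfl fun α _ =>
        Finset.sum_congr rfl fun α' _ => ?_
      simp only [hW, mul_comm]
  · intro β'
    refine hsplit (fun α α' β => R α α' β β') (fun α α' β => W α α' β β') ?_ ?_
    · rw [sum3_132]
      exact gP.sq_row hv0 gP β'
    · rw [sum3_312]
      refine le_trans (le_of_eq ?_) (gS.sq_col hv0 gQ β')
      refine Finset.sum_congr rfl fun β _ => Finset.sum_congr rfl fun α _ =>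
        Finset.sum_congr rfl fun α' _ => ?_
      simp only [hW, mul_comm]

omit [DecidableEq d] in
theorem mulVec_dot (M : Matrix d d ℝ) (y z : d → ℝ) : (M *ᵥ y) ⬝ᵥ z = y ⬝ᵥ (Mᵀ *ᵥ z) := by
  rw [dotProduct_mulVec, vecMul_transpose]

/-- Crossing inequality, operator version (tested on a vector). -/
theorem cross_op {A : ι → Matrix d d ℝ} (hA : ∀ i, (A i).IsSymm) {s v : ℝ} (hs0 : 0 ≤ s)
    (hv0 : 0 ≤ v)
    (hs : ∀ x : d → ℝ, ∑ i, ((A i) *ᵥ x) ⬝ᵥ ((A i) *ᵥ x) ≤ s * (x ⬝ᵥ x))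
    (hv : ∀ c : ι → ℝ, ∑ a, ∑ b, (∑ i, c i * A i a b) ^ 2 ≤ v * ∑ i, c i ^ 2)
    {X Z : Matrix d d ℝ} (hX : X.IsSymm) {r t : ℝ} (hr : 0 ≤ r) (ht : 0 ≤ t)
    (hXr : ∀ y : d → ℝ, (X *ᵥ y) ⬝ᵥ (X *ᵥ y) ≤ r * (y ⬝ᵥ y))
    (hZt : ∀ y : d → ℝ, (Z *ᵥ y) ⬝ᵥ (Z *ᵥ y) ≤ t * (y ⬝ᵥ y)) (a b c e : ℕ) (u : d → ℝ) :
    (∑ k, ∑ i, u ⬝ᵥ ((A k * X ^ a * A i * X ^ b * A k * Z ^ c * A i * Z ^ e) *ᵥ u)) ^ 2 ≤
      (v * s * (u ⬝ᵥ u)) ^ 2 * (r ^ (a + b) * t ^ (c + e)) := by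
  set p : ι → d → ℝ := fun k => (X ^ a) *ᵥ (A k *ᵥ u) with hp
  set q : ι → d → ℝ := fun i => (Z ^ c) *ᵥ (A i *ᵥ ((Z ^ e) *ᵥ u)) with hq
  set Y : d → d → d → ℝ := fun α δ γ => ∑ k, p k α * A k γ δ with hY
  set Wv : d → d → d → ℝ := fun α δ β => ∑ i, q i δ * A i β α with hW
  have hXa : (X ^ a)ᵀ = X ^ a := by rw [transpose_pow, hX.eq]
  have hterm : ∀ k i, u ⬝ᵥ ((A k * X ^ a * A i * X ^ b * A k * Z ^ c * A i * Z ^ e) *ᵥ u) =
      (A i *ᵥ p k) ⬝ᵥ ((X ^ b) *ᵥ (A k *ᵥ q i)) := by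
    intro k i
    rw [mulVec_dot, (hA i).eq, hp]
    simp only
    rw [mulVec_dot, hXa, mulVec_dot, (hA k).eq]
    simp only [hq, mulVec_mulVec, Matrix.mul_assoc]
  have hsum : ∑ k, ∑ i, u ⬝ᵥ ((A k * X ^ a * A i * X ^ b * A k * Z ^ c * A i * Z ^ e) *ᵥ u) =
      ∑ α, ∑ δ, (Wv α δ) ⬝ᵥ ((X ^ b) *ᵥ (Y α δ)) := by
    simp_rw [hterm]
    have h1 : ∀ k i, (A i *ᵥ p k) ⬝ᵥ ((X ^ b) *ᵥ (A k *ᵥ q i)) =
        ∑ α, ∑ δ, ∑ β, ∑ γ, (q i δ * A i β α) * ((X ^ b) β γ * (p k α * A k γ δ)) := by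
      intro k i
      have h2 : (A i *ᵥ p k) ⬝ᵥ ((X ^ b) *ᵥ (A k *ᵥ q i)) =
          ∑ β, ∑ α, ∑ γ, ∑ δ, (A i β α * p k α) * ((X ^ b) β γ * (A k γ δ * q i δ)) := by
        simp only [dotProduct, mulVec]
        refine Finset.sum_congr rfl fun β _ => ?_
        rw [Finset.sum_mul]
        refine Finset.sum_congr rfl fun α _ => ?_
        simp only [Finset.mul_sum]
      rw [h2, Finset.sum_comm]
      refine Finset.sum_congr rfl fun α _ => ?_
      rw [sum3_312]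
      refine Finset.sum_congr rfl fun δ _ => Finset.sum_congr rfl fun β _ =>
        Finset.sum_congr rfl fun γ _ => ?_
      ring
    simp_rw [h1]
    simp only [Finset.sum_comm (s := (Finset.univ : Finset ι)) (t := (Finset.univ : Finset d))]
    refine Finset.sum_congr rfl fun α _ => Finset.sum_congr rfl fun δ _ => ?_
    simp only [dotProduct, mulVec, hW, hY]
    refine Finset.sum_congr rfl fun β _ => ?_
    rw [Finset.mul_sum]
    refine Finset.sum_congr rfl fun γ _ => ?_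
    rw [Finset.mul_sum, Finset.sum_mul_sum, Finset.sum_comm]
  rw [hsum]
  have hCS : (∑ α, ∑ δ, (Wv α δ) ⬝ᵥ ((X ^ b) *ᵥ (Y α δ))) ^ 2 ≤
      (∑ α, ∑ δ, (Wv α δ) ⬝ᵥ (Wv α δ)) *
        (∑ α, ∑ δ, ((X ^ b) *ᵥ (Y α δ)) ⬝ᵥ ((X ^ b) *ᵥ (Y α δ))) := by
    have := Finset.sum_mul_sq_le_sq_mul_sq (Finset.univ : Finset (d × d × d))
      (fun x => Wv x.1 x.2.1 x.2.2) (fun x => ((X ^ b) *ᵥ (Y x.1 x.2.1)) x.2.2)
    simpa only [Fintype.sum_prod_type, dotProduct, sq] using this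
  have hWle : ∑ α, ∑ δ, (Wv α δ) ⬝ᵥ (Wv α δ) ≤ v * s * t ^ (c + e) * (u ⬝ᵥ u) := by
    have h1 : ∑ α, ∑ δ, (Wv α δ) ⬝ᵥ (Wv α δ) =
        ∑ δ, ∑ β, ∑ α, (∑ i, q i δ * A i β α) ^ 2 := by
      rw [Finset.sum_comm]
      refine Finset.sum_congr rfl fun δ _ => ?_
      simp only [dotProduct, hW, ← sq]
      rw [Finset.sum_comm]
    rw [h1]
    calc ∑ δ, ∑ β, ∑ α, (∑ i, q i δ * A i β α) ^ 2 ≤ ∑ δ, v * ∑ i, q i δ ^ 2 :=
          Finset.sum_le_sum fun δ _ => hv _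
      _ = v * ∑ i, (q i) ⬝ᵥ (q i) := by
          rw [← Finset.mul_sum, Finset.sum_comm]
          simp only [dotProduct, sq]
      _ ≤ v * ∑ i, t ^ c * ((A i *ᵥ ((Z ^ e) *ᵥ u)) ⬝ᵥ (A i *ᵥ ((Z ^ e) *ᵥ u))) :=
          mul_le_mul_of_nonneg_left (Finset.sum_le_sum fun i _ => pow_mulVec_le ht hZt c _) hv0
      _ = v * (t ^ c * ∑ i, ((A i *ᵥ ((Z ^ e) *ᵥ u)) ⬝ᵥ (A i *ᵥ ((Z ^ e) *ᵥ u)))) := by
          rw [← Finset.mul_sum]
      _ ≤ v * (t ^ c * (s * (t ^ e * (u ⬝ᵥ u)))) := by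
          refine mul_le_mul_of_nonneg_left (mul_le_mul_of_nonneg_left ?_ (by positivity)) hv0
          exact (hs _).trans (mul_le_mul_of_nonneg_left (pow_mulVec_le ht hZt e _) hs0)
      _ = _ := by ring
  have hYle : ∑ α, ∑ δ, ((X ^ b) *ᵥ (Y α δ)) ⬝ᵥ ((X ^ b) *ᵥ (Y α δ)) ≤
      v * s * r ^ (a + b) * (u ⬝ᵥ u) := by
    have h0 : ∑ α, ∑ δ, ((X ^ b) *ᵥ (Y α δ)) ⬝ᵥ ((X ^ b) *ᵥ (Y α δ)) ≤
        ∑ α, ∑ δ, r ^ b * ((Y α δ) ⬝ᵥ (Y α δ)) :=
      Finset.sum_le_sum fun α _ => Finset.sum_le_sum fun δ _ => pow_mulVec_le hr hXr b _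
    have h1 : ∑ α, ∑ δ, r ^ b * ((Y α δ) ⬝ᵥ (Y α δ)) =
        r ^ b * ∑ α, ∑ γ, ∑ δ, (∑ k, p k α * A k γ δ) ^ 2 := by
      rw [Finset.mul_sum]
      refine Finset.sum_congr rfl fun α _ => ?_
      rw [← Finset.mul_sum]
      congr 1
      simp only [dotProduct, hY, ← sq]
      rw [Finset.sum_comm]
    refine h0.trans (h1.le.trans ?_)
    calc r ^ b * ∑ α, ∑ γ, ∑ δ, (∑ k, p k α * A k γ δ) ^ 2 ≤
          r ^ b * ∑ α, v * ∑ k, p k α ^ 2 :=
          mul_le_mul_of_nonneg_left (Finset.sum_le_sum fun α _ => hv _) (by positivity)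
      _ = r ^ b * (v * ∑ k, (p k) ⬝ᵥ (p k)) := by
          rw [← Finset.mul_sum, Finset.sum_comm]
          simp only [dotProduct, sq]
      _ ≤ r ^ b * (v * ∑ k, r ^ a * ((A k *ᵥ u) ⬝ᵥ (A k *ᵥ u))) := by
          refine mul_le_mul_of_nonneg_left (mul_le_mul_of_nonneg_left ?_ hv0) (by positivity)
          exact Finset.sum_le_sum fun k _ => pow_mulVec_le hr hXr a _
      _ = r ^ b * (v * (r ^ a * ∑ k, ((A k *ᵥ u) ⬝ᵥ (A k *ᵥ u)))) := by
          rw [← Finset.mul_sum]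
      _ ≤ r ^ b * (v * (r ^ a * (s * (u ⬝ᵥ u)))) := by
          refine mul_le_mul_of_nonneg_left (mul_le_mul_of_nonneg_left
            (mul_le_mul_of_nonneg_left (hs u) (by positivity)) hv0) (by positivity)
      _ = _ := by ring
  have hu := dot_self_nonneg u
  have hY0 : 0 ≤ ∑ α, ∑ δ, ((X ^ b) *ᵥ (Y α δ)) ⬝ᵥ ((X ^ b) *ᵥ (Y α δ)) :=
    Finset.sum_nonneg fun α _ => Finset.sum_nonneg fun δ _ => dot_self_nonneg _
  calc _ ≤ _ := hCS
    _ ≤ (v * s * t ^ (c + e) * (u ⬝ᵥ u)) * (v * s * r ^ (a + b) * (u ⬝ᵥ u)) :=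
        mul_le_mul hWle hYle hY0 (by positivity)
    _ = _ := by ring

end Pool.Agent.Lib.H31.MC
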