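import Pool.Agent.Lib.H31.MC.Gauss
import Pool.Agent.Lib.H31.MC.Spec

/-!
# Polynomial matrices in Gaussian variables
-/

set_option autoImplicit false

open MvPolynomial Matrix

namespace Pool.Agent.Lib.H31.MC

variable {ι d : Type} [Fintype ι] [Fintype d] [DecidableEq d]

/-- the random matrix `∑ g_i A_i` -/
noncomputable def Xm (A : ι → Matrix d d ℝ) (g : ι → ℝ) : Matrix d d ℝ := ∑ i, g i • A i

/-- the polynomial matrix `∑ X_i A_i` -/
noncomputable def PX (A : ι → Matrix d d ℝ) : Matrix d d (MvPolynomial ι ℝ) :=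
  ∑ i, (X i : MvPolynomial ι ℝ) • (A i).map (C : ℝ →+* MvPolynomial ι ℝ)

/-- constant matrices -/
noncomputable def cm (B : Matrix d d ℝ) : Matrix d d (MvPolynomial ι ℝ) :=
  B.map (C : ℝ →+* MvPolynomial ι ℝ)

theorem mapMatrix_cm (g : ι → ℝ) (B : Matrix d d ℝ) : (eval g).mapMatrix (cm B) = B := by
  ext a b
  simp [cm]

theorem mapMatrix_PX (A : ι → Matrix d d ℝ) (g : ι → ℝ) : (eval g).mapMatrix (PX A) = Xm A g := by
  ext a b
  simp only [PX, Xm, RingHom.mapMatrix_apply, Matrix.map_apply, Matrix.sum_apply, map_sum,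
    Matrix.smul_apply, smul_eq_mul, map_mul, eval_X, eval_C]

theorem eval_trace (g : ι → ℝ) (M : Matrix d d (MvPolynomial ι ℝ)) :
    eval g M.trace = ((eval g).mapMatrix M).trace := by
  simp [Matrix.trace]

theorem eval_entry (g : ι → ℝ) (M : Matrix d d (MvPolynomial ι ℝ)) (a b : d) :
    eval g (M a b) = ((eval g).mapMatrix M) a b := rfl

theorem eval_PX_pow (A : ι → Matrix d d ℝ) (g : ι → ℝ) (n : ℕ) (a b : d) :
    eval g ((PX A ^ n) a b) = (Xm A g ^ n) a b := by
  rw [eval_entry, map_pow, mapMatrix_PX]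

theorem Xm_symm {A : ι → Matrix d d ℝ} (hA : ∀ i, (A i).IsSymm) (g : ι → ℝ) :
    (Xm A g).IsSymm := by
  unfold Xm Matrix.IsSymm
  rw [Matrix.transpose_sum]
  refine Finset.sum_congr rfl fun i _ => ?_
  rw [transpose_smul, (hA i).eq]

/-! ### derivatives -/

/-- entrywise derivative -/
noncomputable def dM (i : ι) (M : Matrix d d (MvPolynomial ι ℝ)) :
    Matrix d d (MvPolynomial ι ℝ) := M.map (pderiv i)

theorem dM_mul (i : ι) (M N : Matrix d d (MvPolynomial ι ℝ)) :
    dM i (M * N) = dM i M * N + M * dM i N := by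
  refine Matrix.ext fun a b => ?_
  simp only [dM, Matrix.map_apply, Matrix.mul_apply, Matrix.add_apply, map_sum,
    Derivation.leibniz, smul_eq_mul]
  rw [← Finset.sum_add_distrib]
  refine Finset.sum_congr rfl fun c _ => ?_
  ring

theorem dM_cm (i : ι) (B : Matrix d d ℝ) : dM i (cm B : Matrix d d (MvPolynomial ι ℝ)) = 0 := by
  refine Matrix.ext fun a b => ?_
  simp [dM, cm]

theorem dM_PX [DecidableEq ι] (A : ι → Matrix d d ℝ) (i : ι) : dM i (PX A) = cm (A i) := by
  refine Matrix.ext fun a b => ?_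
  simp only [dM, PX, cm, Matrix.map_apply, Matrix.sum_apply, map_sum, Matrix.smul_apply,
    smul_eq_mul, Derivation.leibniz, pderiv_C, mul_zero, zero_add, pderiv_X]
  rw [Finset.sum_eq_single i]
  · simp
  · intro j _ hj
    simp [Pi.single_eq_of_ne hj]
  · simp

theorem dM_pow [DecidableEq ι] (A : ι → Matrix d d ℝ) (i : ι) (n : ℕ) :
    dM i (PX A ^ n) = ∑ j ∈ Finset.range n, PX A ^ j * cm (A i) * PX A ^ (n - 1 - j) := by
  induction n with
  | zero =>
    rw [Finset.range_zero, Finset.sum_empty]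
    refine Matrix.ext fun a b => ?_
    simp only [pow_zero, dM, Matrix.map_apply, Matrix.one_apply, Matrix.zero_apply]
    split_ifs <;> simp
  | succ n ih =>
    rw [pow_succ, dM_mul, ih, dM_PX, Finset.sum_range_succ, Finset.sum_mul]
    congr 1
    · refine Finset.sum_congr rfl fun j hj => ?_
      have hj' := Finset.mem_range.1 hj
      rw [Matrix.mul_assoc, ← pow_succ]
      congr 2
      omega
    · simp

theorem pderiv_trace (i : ι) (M : Matrix d d (MvPolynomial ι ℝ)) :
    pderiv i M.trace = (dM i M).trace := by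
  simp [Matrix.trace, dM]

/-! ### expectations -/

/-- matrix of expectations of `X^j` -/
noncomputable def Mom (A : ι → Matrix d d ℝ) (j : ℕ) : Matrix d d ℝ :=
  Matrix.of fun a b => E ((PX A ^ j) a b)

/-- the polynomial `tr B X^n` -/
noncomputable def trP (A : ι → Matrix d d ℝ) (B : Matrix d d ℝ) (n : ℕ) : MvPolynomial ι ℝ :=
  (cm B * PX A ^ n).trace

/-- the polynomial `∑_k tr B A_k X^j A_k X^l` -/
noncomputable def TP (A : ι → Matrix d d ℝ) (B : Matrix d d ℝ) (j l : ℕ) : MvPolynomial ι ℝ :=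
  ∑ k, (cm B * cm (A k) * PX A ^ j * cm (A k) * PX A ^ l).trace

theorem eval_trP (A : ι → Matrix d d ℝ) (B : Matrix d d ℝ) (n : ℕ) (g : ι → ℝ) :
    eval g (trP A B n) = (B * Xm A g ^ n).trace := by
  unfold trP
  rw [eval_trace, map_mul, map_pow, mapMatrix_cm, mapMatrix_PX]

theorem eval_TP (A : ι → Matrix d d ℝ) (B : Matrix d d ℝ) (j l : ℕ) (g : ι → ℝ) :
    eval g (TP A B j l) = ∑ k, (B * A k * Xm A g ^ j * A k * Xm A g ^ l).trace := by
  unfold TP
  rw [map_sum]
  refine Finset.sum_congr rfl fun k _ => ?_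
  rw [eval_trace]
  simp only [map_mul, map_pow, mapMatrix_cm, mapMatrix_PX]

/-- Integration by parts. -/
theorem E_trP_succ (A : ι → Matrix d d ℝ) (B : Matrix d d ℝ) (n : ℕ) :
    E (trP A B (n + 1)) = ∑ j ∈ Finset.range n, E (TP A B j (n - 1 - j)) := by
  classical
  have h1 : trP A B (n + 1) = ∑ k, X k * (cm B * cm (A k) * PX A ^ n).trace := by
    unfold trP
    rw [pow_succ']
    conv_lhs =>
      rw [show PX A * PX A ^ n = (∑ i, (X i : MvPolynomial ι ℝ) • cm (A i)) * PX A ^ n from rfl]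
    rw [Finset.sum_mul, Finset.mul_sum, Matrix.trace_sum]
    refine Finset.sum_congr rfl fun k _ => ?_
    rw [Matrix.smul_mul, Matrix.mul_smul, Matrix.trace_smul, smul_eq_mul, Matrix.mul_assoc]
  rw [h1, map_sum]
  have h2 : ∀ k, E (X k * (cm B * cm (A k) * PX A ^ n).trace) =
      ∑ j ∈ Finset.range n, E ((cm B * cm (A k) * PX A ^ j * cm (A k) *
        PX A ^ (n - 1 - j)).trace) := by
    intro k
    rw [E_X_mul, pderiv_trace, dM_mul, dM_mul, dM_cm, dM_cm, Matrix.zero_mul, Matrix.mul_zero,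
      add_zero, Matrix.zero_mul, zero_add, dM_pow, Finset.mul_sum, Matrix.trace_sum, map_sum]
    refine Finset.sum_congr rfl fun j _ => ?_
    simp only [Matrix.mul_assoc]
  simp_rw [h2]
  rw [Finset.sum_comm]
  refine Finset.sum_congr rfl fun j _ => ?_
  unfold TP
  rw [map_sum]

theorem E_trP (A : ι → Matrix d d ℝ) (B : Matrix d d ℝ) (n : ℕ) :
    E (trP A B n) = (B * Mom A n).trace := by
  unfold trP
  simp only [Matrix.trace, diag_apply, Matrix.mul_apply, map_sum, Mom, Matrix.of_apply]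
  refine Finset.sum_congr rfl fun a _ => Finset.sum_congr rfl fun b _ => ?_
  simp only [cm, Matrix.map_apply, E_C_mul]

theorem trace_quad (M1 M2 M3 M4 : Matrix d d ℝ) : (M1 * M2 * M3 * M4).trace =
    ∑ a, ∑ b, ∑ c, ∑ e, M1 a b * M2 b c * M3 c e * M4 e a := by
  simp only [Matrix.trace, diag_apply, Matrix.mul_apply, Finset.sum_mul]
  refine Finset.sum_congr rfl fun a _ => ?_
  rw [sum3_321]

/-- Decoupling of `E ∑_k tr B A_k X^j A_k X^l`. -/
theorem TP_le (A : ι → Matrix d d ℝ) (B : Matrix d d ℝ) (j l : ℕ) (P : MvPolynomial ι ℝ)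
    (h : ∀ x z : ι → ℝ, ∀ a b c e : ℕ, a + b + 1 = j → c + e + 1 = l →
      ∑ k, ∑ i, (B * A k * Xm A x ^ a * A i * Xm A x ^ b * A k * Xm A z ^ c * A i *
        Xm A z ^ e).trace ≤ eval x P + eval z P) :
    E (TP A B j l) ≤ ∑ k, (B * A k * Mom A j * A k * Mom A l).trace + 2 * (j * l) * E P := by
  classical
  set w : ι × d × d × d × d → ℝ := fun s => (B * A s.1) s.2.1 s.2.2.1 * A s.1 s.2.2.2.1 s.2.2.2.2
    with hw
  set F : ι × d × d × d × d → MvPolynomial ι ℝ := fun s => (PX A ^ j) s.2.2.1 s.2.2.2.1 with hF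
  set G : ι × d × d × d × d → MvPolynomial ι ℝ := fun s => (PX A ^ l) s.2.2.2.2 s.2.1 with hG
  have hexp : ∀ (M N : Matrix d d ℝ), ∑ k, (B * A k * M * A k * N).trace =
      ∑ s : ι × d × d × d × d, w s * (M s.2.2.1 s.2.2.2.1 * N s.2.2.2.2 s.2.1) := by
    intro M N
    simp only [Fintype.sum_prod_type, hw]
    refine Finset.sum_congr rfl fun k _ => ?_
    rw [trace_quad]
    refine Finset.sum_congr rfl fun a _ => Finset.sum_congr rfl fun b _ =>
      Finset.sum_congr rfl fun c _ => Finset.sum_congr rfl fun e _ => ?_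
    ring
  have hcond : ∀ x z : ι → ℝ, ∑ s, w s * ∑ i, eval x (pderiv i (F s)) * eval z (pderiv i (G s)) ≤
      eval x (C ((j : ℝ) * l) * P) + eval z (C ((j : ℝ) * l) * P) := by
    intro x z
    have hd : ∀ (n : ℕ) (i : ι) (g : ι → ℝ) (a b : d), eval g (pderiv i ((PX A ^ n) a b)) =
        (∑ t ∈ Finset.range n, Xm A g ^ t * A i * Xm A g ^ (n - 1 - t)) a b := by
      intro n i g a b
      have h1 : pderiv i ((PX A ^ n) a b) = (dM i (PX A ^ n)) a b := rfl
      rw [h1, dM_pow, eval_entry, map_sum]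
      simp only [map_mul, map_pow, mapMatrix_cm, mapMatrix_PX]
    have e1 : ∑ s, w s * ∑ i, eval x (pderiv i (F s)) * eval z (pderiv i (G s)) =
        ∑ i, ∑ k, (B * A k * (∑ t ∈ Finset.range j, Xm A x ^ t * A i * Xm A x ^ (j - 1 - t)) *
          A k * (∑ t ∈ Finset.range l, Xm A z ^ t * A i * Xm A z ^ (l - 1 - t))).trace := by
      simp_rw [hexp, hF, hG, hd, Finset.mul_sum]
      rw [Finset.sum_comm]
    have e2 : ∀ i k, (B * A k * (∑ t ∈ Finset.range j, Xm A x ^ t * A i * Xm A x ^ (j - 1 - t)) *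
          A k * (∑ t ∈ Finset.range l, Xm A z ^ t * A i * Xm A z ^ (l - 1 - t))).trace =
        ∑ t ∈ Finset.range j, ∑ u ∈ Finset.range l, (B * A k * Xm A x ^ t * A i *
          Xm A x ^ (j - 1 - t) * A k * Xm A z ^ u * A i * Xm A z ^ (l - 1 - u)).trace := by
      intro i k
      rw [Finset.mul_sum, Matrix.trace_sum, Finset.sum_comm]
      refine Finset.sum_congr rfl fun u _ => ?_
      rw [Finset.mul_sum, Finset.sum_mul, Finset.sum_mul, Matrix.trace_sum]
      refine Finset.sum_congr rfl fun t _ => ?_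
      simp only [Matrix.mul_assoc]
    rw [e1]
    simp_rw [e2]
    have e3 : ∑ i, ∑ k, ∑ t ∈ Finset.range j, ∑ u ∈ Finset.range l, (B * A k * Xm A x ^ t * A i *
          Xm A x ^ (j - 1 - t) * A k * Xm A z ^ u * A i * Xm A z ^ (l - 1 - u)).trace =
        ∑ t ∈ Finset.range j, ∑ u ∈ Finset.range l, ∑ k, ∑ i, (B * A k * Xm A x ^ t * A i *
          Xm A x ^ (j - 1 - t) * A k * Xm A z ^ u * A i * Xm A z ^ (l - 1 - u)).trace := by
      rw [Finset.sum_comm]
      simp only [Finset.sum_comm (s := (Finset.univ : Finset ι)) (t := Finset.range j),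
        Finset.sum_comm (s := (Finset.univ : Finset ι)) (t := Finset.range l)]
    rw [e3]
    have e4 : ∑ t ∈ Finset.range j, ∑ u ∈ Finset.range l, ∑ k, ∑ i, (B * A k * Xm A x ^ t * A i *
          Xm A x ^ (j - 1 - t) * A k * Xm A z ^ u * A i * Xm A z ^ (l - 1 - u)).trace ≤
        ∑ t ∈ Finset.range j, ∑ u ∈ Finset.range l, (eval x P + eval z P) := by
      refine Finset.sum_le_sum fun t ht => Finset.sum_le_sum fun u hu => ?_
      have ht' := Finset.mem_range.1 ht
      have hu' := Finset.mem_range.1 hu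
      exact h x z t (j - 1 - t) u (l - 1 - u) (by omega) (by omega)
    refine e4.trans (le_of_eq ?_)
    simp only [Finset.sum_const, Finset.card_range, nsmul_eq_mul, map_mul, eval_C]
    ring
  have key := cov_le w F G (C ((j : ℝ) * l) * P) hcond
  have e5 : E (TP A B j l) = ∑ s, w s * E (F s * G s) := by
    have h1 : TP A B j l = ∑ s, C (w s) * (F s * G s) := by
      apply MvPolynomial.funext
      intro g
      rw [eval_TP, hexp, map_sum]
      refine Finset.sum_congr rfl fun s _ => ?_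
      simp only [map_mul, eval_C, hF, hG, eval_PX_pow]
    rw [h1, map_sum]
    simp only [E_C_mul]
  have e6 : ∑ k, (B * A k * Mom A j * A k * Mom A l).trace =
      ∑ s, w s * (E (F s) * E (G s)) := by
    rw [hexp]
    rfl
  rw [e5, e6]
  refine key.trans (le_of_eq ?_)
  rw [E_C_mul]
  ring

end Pool.Agent.Lib.H31.MC
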