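import Pool.Agent.Lib.H31.MC.Main

/-!
# Rademacher matrix series
-/

set_option autoImplicit false

open MvPolynomial Matrix MeasureTheory ProbabilityTheory

namespace Pool.Agent.Lib.H31.MC

/-! ### one dimension -/

theorem mom_odd (n : ℕ) : mom (2 * n + 1) = 0 := by
  induction n with
  | zero => rw [mom_succ]; simp
  | succ n ih =>
    rw [show 2 * (n + 1) + 1 = (2 * n + 2) + 1 by ring, mom_succ]
    rw [show 2 * n + 2 - 1 = 2 * n + 1 by omega, ih, mul_zero]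

theorem mom_sign (n : ℕ) {c : ℝ} (hc : c = 1 ∨ c = -1) : c ^ n * mom n = mom n := by
  rcases Nat.even_or_odd' n with ⟨k, hk | hk⟩
  · have : c ^ n = 1 := by
      rw [hk, pow_mul]
      rcases hc with h | h <;> simp [h]
    rw [this, one_mul]
  · rw [hk, mom_odd, mul_zero]

/-- mean of the absolute value -/
noncomputable def kap : ℝ := ∫ x : ℝ, |x| ∂(gaussianReal 0 1)

theorem kap_ge : 9 / 16 ≤ kap := by
  have h1 : ∫ x : ℝ, (3 / 4 * x ^ 2 - 1 / 16 * x ^ 4) ∂(gaussianReal 0 1) = 9 / 16 := by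
    rw [integral_sub ((integrable_pow_gauss 2).const_mul _) ((integrable_pow_gauss 4).const_mul _),
      integral_const_mul, integral_const_mul]
    have h2 : mom 2 = 1 := by rw [mom_succ, show 1 - 1 = 0 by rfl, mom_zero]; norm_num
    have h4 : mom 4 = 3 := by
      rw [mom_succ, show 3 - 1 = 2 by rfl, h2]; norm_num
    unfold mom at h2 h4
    rw [h2, h4]
    norm_num
  rw [← h1]
  unfold kap
  refine integral_mono ?_ ?_ (fun x => ?_)
  · exact ((integrable_pow_gauss 2).const_mul _).sub ((integrable_pow_gauss 4).const_mul _)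
  · have := (integrable_pow_gauss 1).abs
    simpa using this
  · simp only
    have h3 : x ^ 2 = |x| ^ 2 := (sq_abs x).symm
    have h4 : x ^ 4 = |x| ^ 4 := by
      rw [show (4 : ℕ) = 2 * 2 by rfl, pow_mul, pow_mul, sq_abs]
    rw [h3, h4]
    set t := |x| with ht
    have ht0 : 0 ≤ t := abs_nonneg x
    have h5 : 0 ≤ t * ((t - 2) ^ 2 * (t + 4)) := by positivity
    nlinarith

variable {τ : Type} [Fintype τ]

theorem eval_mono' (m : τ →₀ ℕ) (a : ℝ) (g : τ → ℝ) :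
    eval g (monomial m a) = a * ∏ i, g i ^ m i := by
  rw [eval_monomial]
  congr 1
  exact Finsupp.prod_fintype _ _ (by simp)

theorem integrable_abs_monomial (m : τ →₀ ℕ) (a : ℝ) (c : τ → ℝ) :
    Integrable (fun g : τ → ℝ => eval (fun i => c i * |g i|) (monomial m a)) (gm τ) := by
  simp_rw [eval_mono']
  refine Integrable.const_mul ?_ a
  refine Integrable.fintype_prod (f := fun (i : τ) (x : ℝ) => (c i * |x|) ^ m i) (fun i => ?_)
  simp_rw [mul_pow]
  refine Integrable.const_mul ?_ _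
  have := (integrable_pow_gauss (m i)).abs
  simpa [abs_pow] using this

theorem integrable_abs_eval (P : MvPolynomial τ ℝ) (c : τ → ℝ) :
    Integrable (fun g : τ → ℝ => eval (fun i => c i * |g i|) P) (gm τ) := by
  induction P using MvPolynomial.induction_on' with
  | monomial m a => exact integrable_abs_monomial m a c
  | add p q hp hq =>
    simp only [map_add]
    exact hp.add hq

/-- change of signs -/
noncomputable def flipP (c : τ → ℝ) : MvPolynomial τ ℝ →ₐ[ℝ] MvPolynomial τ ℝ :=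
  aeval fun i => C (c i) * X i

theorem eval_flipP (c : τ → ℝ) (P : MvPolynomial τ ℝ) (g : τ → ℝ) :
    eval g (flipP c P) = eval (fun i => c i * g i) P := by
  have : ((eval g).comp (flipP (τ := τ) c).toRingHom) = eval (fun i => c i * g i) := by
    apply MvPolynomial.ringHom_ext
    · intro r
      simp [flipP]
    · intro i
      simp [flipP]
  exact DFunLike.congr_fun this P

theorem E_flipP (c : τ → ℝ) (hc : ∀ i, c i = 1 ∨ c i = -1) (P : MvPolynomial τ ℝ) :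
    E (flipP c P) = E P := by
  induction P using MvPolynomial.induction_on' with
  | add p q hp hq => rw [map_add, map_add, map_add, hp, hq]
  | monomial m a =>
    have h1 : flipP c (monomial m a) = monomial m (a * ∏ i, c i ^ m i) := by
      apply MvPolynomial.funext
      intro g
      rw [eval_flipP, eval_mono', eval_mono', mul_assoc, ← Finset.prod_mul_distrib]
      simp only [mul_pow]
    rw [h1, E_monomial, E_monomial, mul_assoc, ← Finset.prod_mul_distrib]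
    congr 1
    exact Finset.prod_congr rfl fun i _ => mom_sign (m i) (hc i)

/-! ### signs -/

/-- real sign of a Boolean -/
def sg (b : Bool) : ℝ := if b then 1 else -1

theorem sg_cases (b : Bool) : sg b = 1 ∨ sg b = -1 := by
  cases b <;> simp [sg]

theorem sg_not (b : Bool) : sg (!b) = -sg b := by
  cases b <;> simp [sg]

theorem sum_sign_abs [DecidableEq τ] (Φ : (τ → ℝ) → ℝ) (g : τ → ℝ) :
    ∑ e : τ → Bool, Φ (fun i => sg (e i) * |g i|) = ∑ e : τ → Bool, Φ (fun i => sg (e i) * g i) := by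
  classical
  let φ : (τ → Bool) ≃ (τ → Bool) :=
    { toFun := fun e i => if 0 ≤ g i then e i else !(e i)
      invFun := fun e i => if 0 ≤ g i then e i else !(e i)
      left_inv := fun e => by
        funext i
        by_cases h : 0 ≤ g i <;> simp [h]
      right_inv := fun e => by
        funext i
        by_cases h : 0 ≤ g i <;> simp [h] }
  refine Fintype.sum_equiv φ _ _ fun e => ?_
  congr 1
  funext i
  by_cases h : 0 ≤ g i
  · simp [φ, h, abs_of_nonneg h]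
  · have h' : g i < 0 := not_le.1 h
    simp [φ, h, abs_of_neg h', sg_not]

variable {ι d : Type} [Fintype ι] [Fintype d] [DecidableEq d]

theorem quad_pow_le {X : Matrix d d ℝ} (hX : X.IsSymm) {q : ℕ} (hq : 1 ≤ q) {y : d → ℝ}
    (hy : y ⬝ᵥ y = 1) : (y ⬝ᵥ (X *ᵥ y)) ^ (2 * q) ≤ (X ^ (2 * q)).trace := by
  obtain ⟨r, hr0, hr1, hr2⟩ := exists_normsq X hX
  have h1 := dot_sq_le y (X *ᵥ y)
  have h2 := hr1 y
  rw [hy] at h1 h2
  have h3 : (y ⬝ᵥ (X *ᵥ y)) ^ 2 ≤ r := by linarith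
  rw [pow_mul]
  exact (pow_le_pow_left₀ (sq_nonneg _) h3 q).trans (hr2 q hq)

/-- For symmetric `X` some unit vector attains the norm. -/
theorem exists_unit [Nonempty d] (X : Matrix d d ℝ) (hX : X.IsSymm) :
    ∃ y : d → ℝ, y ⬝ᵥ y = 1 ∧ ∀ z : d → ℝ, (X *ᵥ z) ⬝ᵥ (X *ᵥ z) ≤
      (y ⬝ᵥ (X *ᵥ y)) ^ 2 * (z ⬝ᵥ z) := by
  obtain ⟨U, x, hU, hU', rfl⟩ := exists_diag X hX
  obtain ⟨a₀, ha₀⟩ := Finite.exists_max (fun a => x a ^ 2)
  refine ⟨U *ᵥ (Pi.single a₀ 1), ?_, fun z => ?_⟩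
  · rw [dot_orth hU]; simp
  · have h3 : (U *ᵥ (Pi.single a₀ 1)) ⬝ᵥ ((U * diagonal x * Uᵀ) *ᵥ (U *ᵥ (Pi.single a₀ 1))) =
        x a₀ := by
      rw [dotProduct_mulVec, dotProduct_mulVec, ← vecMul_transpose, vecMul_vecMul, vecMul_vecMul]
      have : Uᵀ * (U * diagonal x * Uᵀ * U) = diagonal x := by
        calc Uᵀ * (U * diagonal x * Uᵀ * U) = (Uᵀ * U) * diagonal x * (Uᵀ * U) := by
              simp only [Matrix.mul_assoc]
          _ = _ := by rw [hU]; simp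
      rw [this]
      simp [dotProduct_single]
    rw [h3, dot_self_diag hU]
    have h1 : z ⬝ᵥ z = ∑ a, (Uᵀ *ᵥ z) a ^ 2 := by
      have h2 := dot_orth (U := Uᵀ) (by rwa [transpose_transpose]) z
      rw [← h2]
      simp only [dotProduct, sq]
    rw [h1, Finset.mul_sum]
    exact Finset.sum_le_sum fun a _ => mul_le_mul_of_nonneg_right (ha₀ a) (sq_nonneg _)

/-- quadratic form of the random matrix -/
theorem quad_Xm (A : ι → Matrix d d ℝ) (g : ι → ℝ) (y : d → ℝ) :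
    y ⬝ᵥ (Xm A g *ᵥ y) = ∑ i, g i * (y ⬝ᵥ (A i *ᵥ y)) := by
  unfold Xm
  rw [Matrix.sum_mulVec, dotProduct_sum]
  refine Finset.sum_congr rfl fun i _ => ?_
  rw [smul_mulVec, dotProduct_smul, smul_eq_mul]

theorem integrable_abs_one (i : ι) : Integrable (fun g : ι → ℝ => |g i|) (gm ι) := by
  have := integrable_abs_eval (τ := ι) (X i) (fun _ => 1)
  simpa using this

theorem integral_abs_one (i : ι) : ∫ g : ι → ℝ, |g i| ∂(gm ι) = kap := by
  classical
  unfold gm kap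
  have h := integral_fintype_prod_eq_prod (ι := ι) (𝕜 := ℝ) (E := fun _ => ℝ)
    (μ := fun _ => gaussianReal 0 1)
    (f := fun j (x : ℝ) => if j = i then |x| else 1)
  have h1 : ∀ g : ι → ℝ, ∏ j, (if j = i then |g j| else 1) = |g i| := by
    intro g
    rw [Finset.prod_ite_eq' Finset.univ i]
    simp
  simp_rw [h1] at h
  rw [h, Finset.prod_eq_single i]
  · simp
  · intro j _ hj
    simp [hj]
  · simp

/-- Jensen for one sign vector. -/
theorem jensen_one {A : ι → Matrix d d ℝ} (hA : ∀ i, (A i).IsSymm) {q : ℕ} (hq : 1 ≤ q)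
    (c : ι → ℝ) {y : d → ℝ} (hy : y ⬝ᵥ y = 1) :
    (y ⬝ᵥ (Xm A c *ᵥ y)) ^ (2 * q) ≤ (256 / 81) ^ q *
      ∫ g : ι → ℝ, (Xm A (fun i => c i * |g i|) ^ (2 * q)).trace ∂(gm ι) := by
  set a : ι → ℝ := fun i => y ⬝ᵥ (A i *ᵥ y) with ha
  have hint1 : Integrable (fun g : ι → ℝ => ∑ i, (c i * |g i|) * a i) (gm ι) := by
    refine integrable_finsetSum _ fun i _ => ?_
    exact ((integrable_abs_one i).const_mul (c i)).mul_const (a i)
  have hmean : ∫ g : ι → ℝ, (∑ i, (c i * |g i|) * a i) ∂(gm ι) = kap * (∑ i, c i * a i) := by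
    rw [integral_finsetSum _ (fun i _ => ((integrable_abs_one i).const_mul (c i)).mul_const (a i)),
      Finset.mul_sum]
    refine Finset.sum_congr rfl fun i _ => ?_
    rw [integral_mul_const, integral_const_mul, integral_abs_one]
    ring
  have hint2 : Integrable (fun g : ι → ℝ => (∑ i, (c i * |g i|) * a i) ^ (2 * q)) (gm ι) := by
    have := integrable_abs_eval (τ := ι) ((∑ i, X i * C (a i)) ^ (2 * q)) c
    simpa using this
  have hjen : (∫ g : ι → ℝ, (∑ i, (c i * |g i|) * a i) ∂(gm ι)) ^ (2 * q) ≤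
      ∫ g : ι → ℝ, (∑ i, (c i * |g i|) * a i) ^ (2 * q) ∂(gm ι) := by
    have hconv : ConvexOn ℝ Set.univ (fun x : ℝ => x ^ (2 * q)) :=
      (even_two_mul q).convexOn_pow
    exact hconv.map_integral_le (continuous_pow _).continuousOn isClosed_univ
      (Filter.Eventually.of_forall fun _ => Set.mem_univ _) hint1 hint2
  have hint3 : Integrable (fun g : ι → ℝ => (Xm A (fun i => c i * |g i|) ^ (2 * q)).trace)
      (gm ι) := by
    have := integrable_abs_eval (τ := ι) (trP A 1 (2 * q)) c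
    simpa only [eval_tr1] using this
  have hle : ∫ g : ι → ℝ, (∑ i, (c i * |g i|) * a i) ^ (2 * q) ∂(gm ι) ≤
      ∫ g : ι → ℝ, (Xm A (fun i => c i * |g i|) ^ (2 * q)).trace ∂(gm ι) := by
    refine integral_mono hint2 hint3 fun g => ?_
    simp only
    rw [ha, ← quad_Xm]
    exact quad_pow_le (Xm_symm hA _) hq hy
  rw [hmean, mul_pow] at hjen
  rw [quad_Xm]
  have hk : (81 / 256 : ℝ) ^ q ≤ kap ^ (2 * q) := by
    rw [pow_mul]
    refine pow_le_pow_left₀ (by norm_num) ?_ q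
    have := kap_ge
    nlinarith
  have hS : 0 ≤ (∑ i, c i * a i) ^ (2 * q) := (even_two_mul q).pow_nonneg _
  have h5 : (81 / 256 : ℝ) ^ q * (∑ i, c i * a i) ^ (2 * q) ≤
      ∫ g : ι → ℝ, (Xm A (fun i => c i * |g i|) ^ (2 * q)).trace ∂(gm ι) :=
    (mul_le_mul_of_nonneg_right hk hS).trans (hjen.trans hle)
  have h6 : (256 / 81 : ℝ) ^ q * (81 / 256) ^ q = 1 := by
    rw [← mul_pow]; norm_num
  calc (∑ i, c i * a i) ^ (2 * q) = (256 / 81 : ℝ) ^ q * ((81 / 256) ^ q *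
        (∑ i, c i * a i) ^ (2 * q)) := by rw [← mul_assoc, h6, one_mul]
    _ ≤ _ := mul_le_mul_of_nonneg_left h5 (by positivity)

/-- Sign averages are bounded by the Gaussian trace moment. -/
theorem rad_le_gauss [DecidableEq ι] {A : ι → Matrix d d ℝ} (hA : ∀ i, (A i).IsSymm) {q : ℕ} (hq : 1 ≤ q)
    (y : (ι → Bool) → d → ℝ) (hy : ∀ e, y e ⬝ᵥ y e = 1) :
    (∑ e : ι → Bool, (y e ⬝ᵥ (Xm A (fun i => sg (e i)) *ᵥ y e)) ^ (2 * q)) ≤
      (Fintype.card (ι → Bool) : ℝ) * ((256 / 81) ^ q * ff A q) := by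
  classical
  have h1 : ∑ e : ι → Bool, (y e ⬝ᵥ (Xm A (fun i => sg (e i)) *ᵥ y e)) ^ (2 * q) ≤
      ∑ e : ι → Bool, (256 / 81) ^ q *
        ∫ g : ι → ℝ, (Xm A (fun i => sg (e i) * |g i|) ^ (2 * q)).trace ∂(gm ι) :=
    Finset.sum_le_sum fun e _ => jensen_one hA hq _ (hy e)
  refine h1.trans (le_of_eq ?_)
  have hint : ∀ c : ι → ℝ, Integrable (fun g : ι → ℝ =>
      (Xm A (fun i => c i * |g i|) ^ (2 * q)).trace) (gm ι) := by
    intro c
    have := integrable_abs_eval (τ := ι) (trP A 1 (2 * q)) c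
    simpa only [eval_tr1] using this
  have hflip : ∀ e : ι → Bool, ∫ g : ι → ℝ, (Xm A (fun i => sg (e i) * g i) ^ (2 * q)).trace
      ∂(gm ι) = ff A q := by
    intro e
    unfold ff
    rw [← E_flipP (fun i => sg (e i)) (fun i => sg_cases (e i)), E_apply]
    simp_rw [eval_flipP, eval_tr1]
  have hint' : ∀ e : ι → Bool, Integrable (fun g : ι → ℝ =>
      (Xm A (fun i => sg (e i) * g i) ^ (2 * q)).trace) (gm ι) := by
    intro e
    have := integrable_eval (τ := ι) (flipP (fun i => sg (e i)) (trP A 1 (2 * q)))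
    simpa only [eval_flipP, eval_tr1] using this
  rw [← Finset.mul_sum, ← integral_finsetSum _ (fun e _ => hint _)]
  simp_rw [sum_sign_abs (fun h => (Xm A h ^ (2 * q)).trace)]
  rw [integral_finsetSum _ (fun e _ => hint' e)]
  simp_rw [hflip]
  rw [Finset.sum_const, Finset.card_univ, nsmul_eq_mul]
  ring

/-- **Moments of the norm of Rademacher matrix series without logarithmic factor.**
`N e` is any number below the squared norm of the matrix `∑ ± A_i`. -/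
theorem rad_norm_pow [DecidableEq ι] (A : ι → Matrix d d ℝ) (hA : ∀ i, (A i).IsSymm) {s2 v2 : ℝ}
    (hs0 : 0 ≤ s2) (hv0 : 0 ≤ v2)
    (hs : ∀ x : d → ℝ, ∑ i, ((A i) *ᵥ x) ⬝ᵥ ((A i) *ᵥ x) ≤ s2 * (x ⬝ᵥ x))
    (hv : ∀ c : ι → ℝ, ∑ a, ∑ b, (∑ i, c i * A i a b) ^ 2 ≤ v2 * ∑ i, c i ^ 2)
    (p l : ℕ) (hd : (Fintype.card d : ℝ) ≤ Real.exp p) (hp : p ≤ 2 ^ l)
    (hvs : v2 * ((p : ℝ) + l + 1) ^ 4 * 200 ^ (l + 2) ≤ s2)
    (N : (ι → Bool) → ℝ) (hN0 : ∀ e, 0 ≤ N e)
    (hN : ∀ e, ∀ b : ℝ, 0 ≤ b → (∀ z : d → ℝ, ((∑ i, sg (e i) • A i) *ᵥ z) ⬝ᵥ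
      ((∑ i, sg (e i) • A i) *ᵥ z) ≤ b * (z ⬝ᵥ z)) → N e ≤ b) :
    (∑ e : ι → Bool, N e ^ p) / (Fintype.card (ι → Bool) : ℝ) ≤ (640 * s2) ^ p := by
  have hcard : (0 : ℝ) < (Fintype.card (ι → Bool) : ℝ) := by exact_mod_cast Fintype.card_pos
  rw [div_le_iff₀ hcard]
  rcases Nat.eq_zero_or_pos p with h0 | h0
  · subst h0
    simp
  rcases isEmpty_or_nonempty d with hd' | hd'
  · have h1 : ∀ e, N e = 0 := fun e => le_antisymm (hN e 0 le_rfl fun z => by simp) (hN0 e)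
    simp only [h1, zero_pow (by omega : p ≠ 0), Finset.sum_const_zero]
    positivity
  · choose y hy1 hy2 using fun e : ι → Bool =>
      exists_unit (Xm A (fun i => sg (e i))) (Xm_symm hA _)
    have h1 := rad_le_gauss hA h0 y hy1
    have h2 : ff A p ≤ (200 * s2) ^ p := by
      have := gauss_trace_pow A hA hs0 hv0 hs hv p l hd hp hvs
      have h1 : ∫ g : ι → ℝ, ((∑ i, g i • A i) ^ (2 * p)).trace
          ∂(MeasureTheory.Measure.pi fun _ => ProbabilityTheory.gaussianReal 0 1) = ff A p := by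
        unfold ff
        rw [E_apply]
        simp_rw [eval_tr1]
        rfl
      rwa [h1] at this
    have h3 : ∀ e, N e ^ p ≤ (y e ⬝ᵥ (Xm A (fun i => sg (e i)) *ᵥ y e)) ^ (2 * p) := by
      intro e
      rw [pow_mul]
      exact pow_le_pow_left₀ (hN0 e) (hN e _ (sq_nonneg _) (hy2 e)) p
    calc ∑ e, N e ^ p ≤ _ := Finset.sum_le_sum fun e _ => h3 e
      _ ≤ _ := h1
      _ ≤ (Fintype.card (ι → Bool) : ℝ) * ((256 / 81) ^ p * (200 * s2) ^ p) :=
          mul_le_mul_of_nonneg_left (mul_le_mul_of_nonneg_left h2 (by positivity)) hcard.le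
      _ ≤ (640 * s2) ^ p * (Fintype.card (ι → Bool) : ℝ) := by
          rw [mul_comm]
          refine mul_le_mul_of_nonneg_right ?_ hcard.le
          rw [← mul_pow]
          refine pow_le_pow_left₀ (by positivity) ?_ p
          linarith

/-! ### rectangular matrices -/

section rect

variable {m n : Type} [Fintype m] [DecidableEq m] [Fintype n] [DecidableEq n]

/-- symmetric dilation -/
def dil (B : Matrix m n ℝ) : Matrix (m ⊕ n) (m ⊕ n) ℝ := fromBlocks 0 B Bᵀ 0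

theorem dil_symm (B : Matrix m n ℝ) : (dil B).IsSymm := by
  unfold dil Matrix.IsSymm
  rw [fromBlocks_transpose, transpose_transpose, transpose_zero, transpose_zero]

theorem dil_mulVec (B : Matrix m n ℝ) (w : m ⊕ n → ℝ) :
    (dil B *ᵥ w) ⬝ᵥ (dil B *ᵥ w) = (B *ᵥ (w ∘ Sum.inr)) ⬝ᵥ (B *ᵥ (w ∘ Sum.inr)) +
      (Bᵀ *ᵥ (w ∘ Sum.inl)) ⬝ᵥ (Bᵀ *ᵥ (w ∘ Sum.inl)) := by
  have h1 : dil B *ᵥ w = Sum.elim (B *ᵥ (w ∘ Sum.inr)) (Bᵀ *ᵥ (w ∘ Sum.inl)) := by
    unfold dil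
    rw [fromBlocks_mulVec]
    simp
  rw [h1]
  simp [dotProduct, Fintype.sum_sum_type]

theorem dil_smul_sum (c : ι → ℝ) (B : ι → Matrix m n ℝ) :
    ∑ i, c i • dil (B i) = dil (∑ i, c i • B i) := by
  refine Matrix.ext fun a b => ?_
  rw [Matrix.sum_apply]
  rcases a with a | a <;> rcases b with b | b
  · simp [dil]
  · simp [dil, Matrix.sum_apply]
  · simp [dil, Matrix.sum_apply]
  · simp [dil]

theorem dot_sum (w : m ⊕ n → ℝ) :
    w ⬝ᵥ w = (w ∘ Sum.inl) ⬝ᵥ (w ∘ Sum.inl) + (w ∘ Sum.inr) ⬝ᵥ (w ∘ Sum.inr) := by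
  simp [dotProduct, Fintype.sum_sum_type]

/-- Rademacher series of rectangular matrices. -/
theorem rad_norm_pow_rect [DecidableEq ι] (B : ι → Matrix m n ℝ) {s2 v2 : ℝ}
    (hs0 : 0 ≤ s2) (hv0 : 0 ≤ v2)
    (hs : ∀ x : n → ℝ, ∑ i, ((B i) *ᵥ x) ⬝ᵥ ((B i) *ᵥ x) ≤ s2 * (x ⬝ᵥ x))
    (hs' : ∀ x : m → ℝ, ∑ i, ((B i)ᵀ *ᵥ x) ⬝ᵥ ((B i)ᵀ *ᵥ x) ≤ s2 * (x ⬝ᵥ x))
    (hv : ∀ c : ι → ℝ, ∑ a, ∑ b, (∑ i, c i * B i a b) ^ 2 ≤ v2 * ∑ i, c i ^ 2)
    (p l : ℕ) (hd : (Fintype.card m : ℝ) + Fintype.card n ≤ Real.exp p) (hp : p ≤ 2 ^ l)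
    (hvs : 2 * v2 * ((p : ℝ) + l + 1) ^ 4 * 200 ^ (l + 2) ≤ s2)
    (N : (ι → Bool) → ℝ) (hN0 : ∀ e, 0 ≤ N e)
    (hN : ∀ e, ∀ b : ℝ, 0 ≤ b → (∀ z : n → ℝ, ((∑ i, sg (e i) • B i) *ᵥ z) ⬝ᵥ
      ((∑ i, sg (e i) • B i) *ᵥ z) ≤ b * (z ⬝ᵥ z)) → N e ≤ b) :
    (∑ e : ι → Bool, N e ^ p) / (Fintype.card (ι → Bool) : ℝ) ≤ (640 * s2) ^ p := by
  refine rad_norm_pow (fun i => dil (B i)) (fun i => dil_symm _) hs0
    (v2 := 2 * v2) (by positivity) ?_ ?_ p l ?_ hp hvs N hN0 ?_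
  · intro w
    simp_rw [dil_mulVec]
    rw [Finset.sum_add_distrib, dot_sum]
    have h1 := hs (w ∘ Sum.inr)
    have h2 := hs' (w ∘ Sum.inl)
    linarith
  · intro c
    have h1 : ∀ a b, ∑ i, c i * dil (B i) a b = dil (∑ i, c i • B i) a b := by
      intro a b
      rw [← dil_smul_sum, Matrix.sum_apply]
      simp
    simp_rw [h1]
    rw [Fintype.sum_sum_type]
    simp_rw [Fintype.sum_sum_type]
    have h2 := hv c
    have h3 : ∀ a b, (∑ i, c i • B i) a b = ∑ i, c i * B i a b := by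
      intro a b
      rw [Matrix.sum_apply]
      simp
    simp only [dil, fromBlocks_apply₁₁, fromBlocks_apply₁₂, fromBlocks_apply₂₁,
      fromBlocks_apply₂₂, Matrix.zero_apply, transpose_apply, h3]
    have h4 : ∑ x : n, ∑ y : m, (∑ i, c i * B i y x) ^ 2 =
        ∑ a, ∑ b, (∑ i, c i * B i a b) ^ 2 := Finset.sum_comm
    simp only [ne_eq, OfNat.ofNat_ne_zero, not_false_eq_true, zero_pow, Finset.sum_const_zero,
      zero_add, add_zero]
    rw [h4]
    linarith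
  · rw [Fintype.card_sum]
    push_cast
    exact hd
  · intro e b hb h
    refine hN e b hb fun z => ?_
    have h1 := h (Sum.elim 0 z)
    rw [dil_smul_sum, dil_mulVec, dot_sum] at h1
    simpa using h1

end rect

end Pool.Agent.Lib.H31.MC
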